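import Pool.Agent.LibLS35.Basic

/-! # LU56: an upper bound for the line-stabbing exponent (MP_0fb298_co). Definitions. -/

namespace LU56
open LS35

section

variable {V F : Type} [Fintype V] [Fintype F] (T : Tri V F)

/-- `A` and its complement are nonempty and both induce connected subgraphs of the graph of `T` -/
structure Split (A : Set V) : Prop where
  ne : ∃ v, v ∈ A
  nec : ∃ v, v ∉ A
  con : ∀ u ∈ A, ∀ v ∈ A, Relation.ReflTransGen (fun a b => T.Adj a b ∧ a ∈ A ∧ b ∈ A) u v
  conc : ∀ u, u ∉ A → ∀ v, v ∉ A → Relation.ReflTransGen (fun a b => T.Adj a b ∧ a ∉ A ∧ b ∉ A) u v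

/-- the corner `i` of the face `f` is separated by `A` from the two other corners of `f` -/
def Iso (A : Set V) (f : F) (i : Fin 3) : Prop :=
  (T.vt f (i + 1) ∈ A ↔ T.vt f (i + 2) ∈ A) ∧ ¬ (T.vt f i ∈ A ↔ T.vt f (i + 1) ∈ A)

open Classical in
/-- weight of the face `f` for the splitting `A`: `s` if corner `0` is separated from the others, `o` if corner `1` or `2`
is separated from the others, and `0` if all corners are on the same side -/
noncomputable def wgt (A : Set V) (f : F) (s o : ℝ) : ℝ :=
  if Iso T A f 0 then s else if Iso T A f 1 ∨ Iso T A f 2 then o else 0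

/-- A label of a face: `none` (not marked) or `some (τ, k)`: type `τ`, level `k`. -/
abbrev Lab := Option (Fin 2 × ℕ)

/-- weight of a labelled face -/
noncomputable def lw (q : ℝ) (s o : Fin 2 → ℝ) (l : Lab) (A : Set V) (f : F) : ℝ :=
  match l with
  | none => 0
  | some (τ, k) => q ^ k * wgt T A f (s τ) (o τ)

/-- total weight of the splitting `A` -/
noncomputable def Pot (q : ℝ) (s o : Fin 2 → ℝ) (lab : F → Lab) (A : Set V) : ℝ := ∑ f, lw T q s o (lab f) A f

end

/-- size of a label -/
noncomputable def ls (r : ℝ) (n : Fin 2 → ℝ) (l : Lab) : ℝ :=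
  match l with
  | none => 0
  | some (τ, k) => n τ * r ^ k

/-- total size -/
noncomputable def Siz {F : Type} [Fintype F] (r : ℝ) (n : Fin 2 → ℝ) (lab : F → Lab) : ℝ := ∑ f, ls r n (lab f)

/-- A host: a triangulation `H` with a root face `t` and for every other face nothing or a type and a delay, such that
the inequalities for the weights (for all splittings separating the corner `i` of the root from the other two corners) and for the sizes hold. -/
structure Host {V F : Type} [Fintype V] [Fintype F] (q r : ℝ) (s o n : Fin 2 → ℝ) (τ : Fin 2) (H : Tri V F) (t : F)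
    (hl : F → Lab) : Prop where
  root : hl t = none
  delay : ∀ g σ d, hl g = some (σ, d) → 1 ≤ d ∧ d ≤ 61
  few : Fintype.card F ≤ 16
  wt : ∀ B : Set V, Split H B → ∀ i, Iso H B t i →
    ∑ g, lw H q⁻¹ s o (hl g) B g ≤ if i = 0 then s τ else o τ
  sz : n τ ≤ ∑ g, ls r⁻¹ n (hl g)

/-- the size ratio of one level -/
noncomputable def R : ℝ := 1051478 / 1000000

/-- the weight ratio of one level -/
noncomputable def Q : ℝ := 1050469 / 1000000

/-- weights of the two types, if corner `0` is separated -/
noncomputable def sw : Fin 2 → ℝ := ![868302 / 1000000, 995718 / 1000000]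

/-- weights of the two types, if corner `1` or `2` is separated -/
noncomputable def ow : Fin 2 → ℝ := ![1, 935802 / 1000000]

/-- sizes of the two types -/
noncomputable def nw : Fin 2 → ℝ := ![99294 / 100000, 1]

end LU56
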