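import Pool.Agent.LibLS35.W7
import Pool.Agent.LibLU56.Defs

/-! Row A1 (MEDIUM). Climbing: in a plane straight-line drawing with no two vertices at the same height `L v = α (p v).1 + β (p v).2`,
every vertex has a higher neighbour or is the highest vertex.
PLAN. `T.structure_drawing p hp` (W7) gives `o`, `σ`, and all faces `f ≠ o` have `0 < σ * T.ori p f`, `∀ v, p v ∈ T.ctri p o`. Suppose all neighbours `w` of `v` have `L w < L v` (`Adj v w` gives `w ≠ v`,
so `L w ≠ L v` by injectivity). Put `M w = - β ((p w).1 - (p v).1) + α ((p w).2 - (p v).2)` and `m w = M w / (L v - L w)`. Identity: `(α^2+β^2) * dt (p v) (p w) (p w') = (L w - L v) * M w' - M w * (L w' - L v)`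
`= (L v - L w) (L v - L w') (m w - m w')`. Also `α^2+β^2 > 0` (otherwise `L` is constant; `4 ≤ card V`). Choose a neighbour `w` of `v` with `σ * m w` minimal (the set of neighbours is finite, nonempty: `T.conn`, or
`T.exists_at v` gives a face `f` with corner `i` equal to `v`, and `vt f (i+1)` is a neighbour). `Adj v w`: a face `f` with `vt f i = v`, `vt f (i+1) = w`; let `w' = vt f (i+2)`; it is a neighbour of `v` (the reversed dart of `(f, i+2)`, `T.opp`).
If `f ≠ o`: `0 < σ * T.ori p f` and `T.ori p f = dt (p v) (p w) (p w')` (`dt_rot`), so `σ * m w' < σ * m w`, contradiction. So `f = o`; `w, w'` are lower than `v`; all `p u` are in `T.ctri p o` = hull of `p v, p w, p w'`, so `L u ≤ L v`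
(`convexHull_min` with the convex set `{x | α x.1 + β x.2 ≤ L v}`). -/

namespace LU56
open LS35

variable {V F : Type} [Fintype V] [Fintype F] (T : Tri V F)

theorem climb (p : V → ℝ × ℝ) (hp : T.IsDrawing p) (α β : ℝ)
    (hinj : Function.Injective fun v => α * (p v).1 + β * (p v).2) (v : V) :
    (∃ w, T.Adj v w ∧ α * (p v).1 + β * (p v).2 < α * (p w).1 + β * (p w).2) ∨
      ∀ w, α * (p w).1 + β * (p w).2 ≤ α * (p v).1 + β * (p v).2 := by
  classical
  have hfin : ∀ a b : Fin 3, b = a ∨ b = a + 1 ∨ b = a + 2 := by decide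
  obtain ⟨o, σ, hσ, hpos, hneg, _, hin, _⟩ := T.structure_drawing p hp
  by_cases hex : ∃ w, T.Adj v w ∧ α * (p v).1 + β * (p v).2 < α * (p w).1 + β * (p w).2
  · exact Or.inl hex
  right
  push Not at hex
  -- strict
  have hlt : ∀ d : Dart F, T.tail d = v → α * (p (T.head d)).1 + β * (p (T.head d)).2 < α * (p v).1 + β * (p v).2 := by
    intro d hd
    have h1 : T.Adj v (T.head d) := ⟨d.1, d.2, hd, rfl⟩
    refine lt_of_le_of_ne (hex _ h1) fun h => ?_
    have := hinj h
    exact T.tail_ne_head d (hd.trans this.symm)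
  obtain ⟨f0, i0, hi0⟩ := T.exists_at v
  set N : Finset (Dart F) := Finset.univ.filter fun d => T.tail d = v with hN
  have hNne : N.Nonempty := ⟨(f0, i0), by simp [hN, Tri.tail, hi0]⟩
  set m : Dart F → ℝ := fun d => σ * ((- β * ((p (T.head d)).1 - (p v).1) + α * ((p (T.head d)).2 - (p v).2)) /
    ((α * (p v).1 + β * (p v).2) - (α * (p (T.head d)).1 + β * (p (T.head d)).2))) with hm
  obtain ⟨d, hdN, hmin⟩ := Finset.exists_min_image N m hNne
  have hdv : T.tail d = v := by simpa [hN] using hdN
  obtain ⟨f, i⟩ := d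
  have hv : T.vt f i = v := hdv
  -- the next neighbour
  set d' := T.op (f, i + 2) with hd'
  have hi3 : i + 2 + 1 = i := by rw [add_assoc]; simp
  have hd'v : T.tail d' = v := by
    rw [hd', T.tail_op]
    show T.vt f (i + 2 + 1) = v
    rw [hi3, hv]
  have hd'h : T.head d' = T.vt f (i + 2) := by rw [hd', T.head_op]; rfl
  have hle := hmin d' (by simp [hN, hd'v])
  have l1 := hlt (f, i) hv
  have l2 := hlt d' hd'v
  rw [hd'h] at l2
  have hhd : T.head (f, i) = T.vt f (i + 1) := rfl
  rw [hhd] at l1
  simp only [hm] at hle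
  rw [hd'h, hhd] at hle
  by_cases hfo : f = o
  · -- v is the top of the outer triangle
    intro w
    have hw := hin w
    rw [← hfo] at hw
    have hconv : Convex ℝ {x : ℝ × ℝ | α * x.1 + β * x.2 ≤ α * (p v).1 + β * (p v).2} := by
      intro x hx y hy a b ha hb hab
      simp only [Set.mem_setOf_eq, Prod.fst_add, Prod.snd_add, Prod.smul_fst, Prod.smul_snd, smul_eq_mul] at hx hy ⊢
      have e : a = 1 - b := by linarith
      subst e
      nlinarith [mul_le_mul_of_nonneg_left hx ha, mul_le_mul_of_nonneg_left hy hb]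
    have hsub : T.ctri p f ⊆ {x : ℝ × ℝ | α * x.1 + β * x.2 ≤ α * (p v).1 + β * (p v).2} := by
      refine convexHull_min ?_ hconv
      rintro _ ⟨j, rfl⟩
      show α * (p (T.vt f j)).1 + β * (p (T.vt f j)).2 ≤ _
      have hj : j = i ∨ j = i + 1 ∨ j = i + 2 := hfin i j
      rcases hj with rfl | rfl | rfl
      · rw [hv]
      · exact l1.le
      · exact l2.le
    exact hsub hw
  · exfalso
    have h1 := hpos f hfo
    have hori : T.ori p f = dt (p v) (p (T.vt f (i + 1))) (p (T.vt f (i + 2))) := by
      unfold Tri.ori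
      have : i = 0 ∨ i = 1 ∨ i = 2 := hfin 0 i
      rw [← hv]
      rcases this with rfl | rfl | rfl
      · rfl
      · exact (dt_rot _ _ _).symm
      · rw [← dt_rot (p (T.vt f 0)), ← dt_rot (p (T.vt f 1))]
        rfl
    rw [hori] at h1
    set P := p v
    set A := p (T.vt f (i + 1))
    set B := p (T.vt f (i + 2))
    have ha : 0 < (α * P.1 + β * P.2) - (α * A.1 + β * A.2) := by linarith
    have hb : 0 < (α * P.1 + β * P.2) - (α * B.1 + β * B.2) := by linarith
    have hD : 0 < α ^ 2 + β ^ 2 := by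
      by_contra hc
      have e1 : α = 0 := by nlinarith [sq_nonneg α, sq_nonneg β]
      have e2 : β = 0 := by nlinarith [sq_nonneg α, sq_nonneg β]
      rw [e1, e2] at ha
      simp at ha
    have key : (α ^ 2 + β ^ 2) * (σ * dt P A B) ≤ 0 := by
      rw [mul_div_assoc'] at hle
      rw [mul_div_assoc'] at hle
      rw [div_le_div_iff₀ ha hb] at hle
      unfold dt
      nlinarith [hle]
    have := mul_pos hD h1
    linarith

end LU56
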