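import Pool.Agent.LibLU56.A1

/-! Row A2 (SHORT/MEDIUM). The two sides of a generic line induce connected subgraphs.
PLAN. `L v = α (p v).1 + β (p v).2`. UP: every `u` with `γ < L u` is connected inside `A = {v | γ < L v}` with the highest vertex `t` (`∀ w, L w ≤ L t`; it exists since `V` is finite and nonempty and is unique by injectivity): induction on the number of vertices
`w` with `L u < L w` (or `Finite.wellFounded`/strong induction): by `climb` either there is a higher neighbour `w` (so `w ∈ A`, fewer vertices above) or `u` is highest. Adjacency is symmetric (`T.opp`), so `Relation.ReflTransGen` in `A` is symmetric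
(`Relation.ReflTransGen.symmetric`), so any two vertices of `A` are connected through `t`. DOWN: the same with `-α, -β` (`climb` for `-α, -β`; injectivity of `-L`) and `{v | L v < γ}`; `v ∉ A` iff `L v ≤ γ`. -/

namespace LU56
open LS35

variable {V F : Type} [Fintype V] [Fintype F] (T : Tri V F)

private theorem A2_up (L : V → ℝ) (hinj : Function.Injective L)
    (hc : ∀ v, (∃ w, T.Adj v w ∧ L v < L w) ∨ ∀ w, L w ≤ L v) (A : Set V)
    (hA : ∀ u ∈ A, ∀ w, L u < L w → w ∈ A) :
    ∀ u ∈ A, ∀ v ∈ A, Relation.ReflTransGen (fun a b => T.Adj a b ∧ a ∈ A ∧ b ∈ A) u v := by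
  classical
  have hsym : ∀ a b, (T.Adj a b ∧ a ∈ A ∧ b ∈ A) → (T.Adj b a ∧ b ∈ A ∧ a ∈ A) := by
    rintro a b ⟨⟨f, i, h1, h2⟩, ha, hb⟩
    obtain ⟨g, j, h3, h4⟩ := T.opp f i
    exact ⟨⟨g, j, h3.trans h2, h4.trans h1⟩, hb, ha⟩
  have hrev : ∀ a b, Relation.ReflTransGen (fun a b => T.Adj a b ∧ a ∈ A ∧ b ∈ A) a b →
      Relation.ReflTransGen (fun a b => T.Adj a b ∧ a ∈ A ∧ b ∈ A) b a := by
    intro a b hab
    induction hab with
    | refl => exact Relation.ReflTransGen.refl
    | tail _ h ih => exact Relation.ReflTransGen.head (hsym _ _ h) ih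
  intro u hu v hv
  have : Nonempty V := ⟨u⟩
  obtain ⟨t, ht⟩ := Finite.exists_max L
  have key : ∀ (n : ℕ) (x : V), x ∈ A → (Finset.univ.filter (fun w => L x < L w)).card = n →
      Relation.ReflTransGen (fun a b => T.Adj a b ∧ a ∈ A ∧ b ∈ A) x t := by
    intro n
    induction n using Nat.strong_induction_on with
    | _ n ih =>
      intro x hx hn
      rcases hc x with ⟨w, hw, hlt⟩ | hmax
      · have hwA := hA x hx w hlt
        refine Relation.ReflTransGen.head ⟨hw, hx, hwA⟩ (ih _ ?_ w hwA rfl)
        rw [← hn]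
        refine Finset.card_lt_card (Finset.ssubset_iff_of_subset ?_ |>.2 ⟨w, ?_, ?_⟩)
        · intro z hz
          simp only [Finset.mem_filter, Finset.mem_univ, true_and] at hz ⊢
          exact hlt.trans hz
        · simpa using hlt
        · simp
      · have : x = t := hinj (le_antisymm (ht x) (hmax t))
        rw [this]
  exact (key _ u hu rfl).trans (hrev _ _ (key _ v hv rfl))

theorem halves (p : V → ℝ × ℝ) (hp : T.IsDrawing p) (α β γ : ℝ)
    (hinj : Function.Injective fun v => α * (p v).1 + β * (p v).2)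
    (h1 : ∃ v, γ < α * (p v).1 + β * (p v).2) (h2 : ∃ v, ¬ γ < α * (p v).1 + β * (p v).2) :
    Split T {v | γ < α * (p v).1 + β * (p v).2} := by
  refine ⟨h1, h2, ?_, ?_⟩
  · refine A2_up T (fun v => α * (p v).1 + β * (p v).2) hinj
      (fun v => climb T p hp α β hinj v) _ ?_
    intro u hu w hw
    exact lt_trans (show γ < _ from hu) hw
  · have hinj' : Function.Injective fun v => (-α) * (p v).1 + (-β) * (p v).2 := by
      intro a b hab
      apply hinj
      simp only at hab ⊢
      linarith
    have h3 := A2_up T (fun v => (-α) * (p v).1 + (-β) * (p v).2) hinj'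
      (fun v => climb T p hp (-α) (-β) hinj' v)
      ({v | γ < α * (p v).1 + β * (p v).2}ᶜ) (by
        intro u hu w hw
        simp only [Set.mem_compl_iff, Set.mem_ofPred_eq, not_lt] at hu ⊢
        linarith)
    intro u hu v hv
    exact h3 u hu v hv

end LU56
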