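import Pool.Agent.LibLS35.W7
import Pool.Agent.LibLU56.Defs

/-! Row A3 (MEDIUM). A line can be moved to a generic position such that it still meets the same regions.
PLAN. `T.region p f` is open: by `T.structure_drawing p hp` (W7) it is the complement of the closed set `T.ctri p o` (hull of a finite set: `Set.Finite.isClosed_convexHull`) or an interior (or directly from the definition of `region`).
For `f ∈ M'` choose `x f ∈ region ∩ line α β γ`. With `D = α^2+β^2 > 0` let `y f = (-β (x f).1 + α (x f).2) / D`, `c = γ / D`, so `x f = c (α, β) + y f (-β, α)`. For `ε, η` put `x' f = x f + (η + ε y f) (α, β)`: these points lie on the line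
`α' X + β' Y = γ'` with `α' = α + ε β`, `β' = β - ε α`, `γ' = γ + η D`: indeed `α x'.1 + β x'.2 = γ + (η + ε y) D` and `β x'.1 - α x'.2 = - y D`. `(α', β') ≠ 0` for all `ε` (`α'^2+β'^2 = (1+ε^2) D`). For `u ≠ v` the equation
`α' (p u).1 + β' (p u).2 = α' (p v).1 + β' (p v).2` is a linear equation in `ε` that is not an identity (`p u ≠ p v`: if both coefficients vanish, `α a + β b = 0` and `β a - α b = 0` with `(a, b) = p u - p v`, then `(a,b) = 0`), so it has at most one solution:
finitely many bad `ε`; for fixed `ε` finitely many bad `η` (`γ + η D = L' v`). The map `(ε, η) ↦ x' f` is continuous with value `x f` at `0`; so there is `δ > 0` such that for `|ε| < δ`, `|η| < δ` all `x' f ∈ region` (finite `M'`); an interval `(0, δ)` is infinite,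
choose `ε` not bad, then `η` not bad. -/

namespace LU56
open LS35

variable {V F : Type} [Fintype V] [Fintype F] (T : Tri V F)

theorem generic_line (p : V → ℝ × ℝ) (hp : T.IsDrawing p) (M' : Finset F) (α β γ : ℝ) (h : α ≠ 0 ∨ β ≠ 0)
    (hM : ∀ f ∈ M', (T.region p f ∩ line α β γ).Nonempty) :
    ∃ α' β' γ' : ℝ, (Function.Injective fun v => α' * (p v).1 + β' * (p v).2) ∧
      (∀ v, α' * (p v).1 + β' * (p v).2 ≠ γ') ∧ ∀ f ∈ M', (T.region p f ∩ line α' β' γ').Nonempty := by
  classical
  have hD : 0 < α ^ 2 + β ^ 2 := by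
    rcases h with h | h
    · have := pow_pos (abs_pos.2 h) 2
      rw [sq_abs] at this
      nlinarith [sq_nonneg β]
    · have := pow_pos (abs_pos.2 h) 2
      rw [sq_abs] at this
      nlinarith [sq_nonneg α]
  have hopen : ∀ f, IsOpen (T.region p f) := by
    intro f
    unfold Tri.region
    split_ifs
    · exact ((Set.finite_range _).isClosed_convexHull ℝ).isOpen_compl
    · exact isOpen_interior
  choose! x hx using hM
  let y : F → ℝ := fun f => (-β * (x f).1 + α * (x f).2) / (α ^ 2 + β ^ 2)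
  have hy : ∀ f, y f * (α ^ 2 + β ^ 2) = -β * (x f).1 + α * (x f).2 := by
    intro f
    exact div_mul_cancel₀ _ hD.ne'
  let Φ : F → ℝ × ℝ → ℝ × ℝ := fun f e =>
    ((x f).1 + (e.2 + e.1 * y f) * α, (x f).2 + (e.2 + e.1 * y f) * β)
  have hcont : ∀ f, Continuous (Φ f) := by
    intro f
    change Continuous fun e : ℝ × ℝ =>
      ((x f).1 + (e.2 + e.1 * y f) * α, (x f).2 + (e.2 + e.1 * y f) * β)
    fun_prop
  have h0 : ∀ f, Φ f (0, 0) = x f := by
    intro f
    simp [Φ]
  have hU : ∀ᶠ e in nhds ((0 : ℝ), (0 : ℝ)), ∀ f ∈ M', Φ f e ∈ T.region p f := by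
    rw [Filter.eventually_all_finset]
    intro f hf
    have h1 : T.region p f ∈ nhds (Φ f (0, 0)) := by
      rw [h0]
      exact (hopen f).mem_nhds (hx f hf).1
    exact (hcont f).continuousAt.eventually h1
  rw [Metric.eventually_nhds_iff] at hU
  obtain ⟨δ, hδ, hU⟩ := hU
  have hfin : (⋃ u : V, ⋃ v : V, {e : ℝ | u ≠ v ∧ (α + e * β) * (p u).1 + (β - e * α) * (p u).2 =
      (α + e * β) * (p v).1 + (β - e * α) * (p v).2}).Finite := by
    apply Set.finite_iUnion
    intro u
    apply Set.finite_iUnion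
    intro v
    apply Set.Subsingleton.finite
    rintro e1 ⟨huv, h1⟩ e2 ⟨_, h2⟩
    by_contra hne
    have h3 : (e1 - e2) * (β * ((p u).1 - (p v).1) - α * ((p u).2 - (p v).2)) = 0 := by
      linear_combination h1 - h2
    have h4 : β * ((p u).1 - (p v).1) - α * ((p u).2 - (p v).2) = 0 := by
      rcases mul_eq_zero.1 h3 with h | h
      · exact absurd (sub_eq_zero.1 h) hne
      · exact h
    have h5 : α * ((p u).1 - (p v).1) + β * ((p u).2 - (p v).2) = 0 := by
      linear_combination h1 - e1 * h4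
    have h6 : (α ^ 2 + β ^ 2) * ((p u).1 - (p v).1) = 0 := by
      linear_combination α * h5 + β * h4
    have h7 : (α ^ 2 + β ^ 2) * ((p u).2 - (p v).2) = 0 := by
      linear_combination β * h5 - α * h4
    have h8 : (p u).1 = (p v).1 := by
      rcases mul_eq_zero.1 h6 with h | h
      · exact absurd h hD.ne'
      · exact sub_eq_zero.1 h
    have h9 : (p u).2 = (p v).2 := by
      rcases mul_eq_zero.1 h7 with h | h
      · exact absurd h hD.ne'
      · exact sub_eq_zero.1 h
    exact huv (hp.inj (Prod.ext h8 h9))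
  obtain ⟨e, ⟨he0, he1⟩, heb⟩ := ((Set.Ioo_infinite hδ).sdiff hfin).nonempty
  have hfin2 : (⋃ v : V, {g : ℝ | (α + e * β) * (p v).1 + (β - e * α) * (p v).2 =
      γ + g * (α ^ 2 + β ^ 2)}).Finite := by
    apply Set.finite_iUnion
    intro v
    apply Set.Subsingleton.finite
    intro g1 h1 g2 h2
    have h1' : (α + e * β) * (p v).1 + (β - e * α) * (p v).2 = γ + g1 * (α ^ 2 + β ^ 2) := h1
    have h2' : (α + e * β) * (p v).1 + (β - e * α) * (p v).2 = γ + g2 * (α ^ 2 + β ^ 2) := h2
    have h3 : g1 * (α ^ 2 + β ^ 2) = g2 * (α ^ 2 + β ^ 2) := by linarith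
    exact mul_right_cancel₀ hD.ne' h3
  obtain ⟨g, ⟨hg0, hg1⟩, hgb⟩ := ((Set.Ioo_infinite hδ).sdiff hfin2).nonempty
  refine ⟨α + e * β, β - e * α, γ + g * (α ^ 2 + β ^ 2), ?_, ?_, ?_⟩
  · intro u v huv
    by_contra hne
    exact heb (Set.mem_iUnion.2 ⟨u, Set.mem_iUnion.2 ⟨v, hne, huv⟩⟩)
  · intro v hv
    exact hgb (Set.mem_iUnion.2 ⟨v, hv⟩)
  · intro f hf
    have hd : dist ((e, g) : ℝ × ℝ) (0, 0) < δ := by
      rw [Prod.dist_eq]
      apply max_lt
      · rw [Real.dist_eq]
        simpa [abs_of_pos he0] using he1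
      · rw [Real.dist_eq]
        simpa [abs_of_pos hg0] using hg1
    refine ⟨Φ f (e, g), hU hd f hf, ?_⟩
    have hl : α * (x f).1 + β * (x f).2 = γ := (hx f hf).2
    change (α + e * β) * ((x f).1 + (g + e * y f) * α) +
      (β - e * α) * ((x f).2 + (g + e * y f) * β) = γ + g * (α ^ 2 + β ^ 2)
    linear_combination hl + e * hy f

end LU56
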