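import Pool.Agent.LibLU56.A2

/-! Row A4 (MEDIUM). A generic line meets only two-coloured faces, or only the outer face.
PLAN. `L v = α (p v).1 + β (p v).2`, `A = {v | γ < L v}`. Let `o` be as in `T.structure_drawing p hp` (W7). (i) If `f ≠ o` and the line meets `region f = interior (ctri f) ⊆ ctri f` in `x`: not all corners of `f` have `L < γ` and not all have `γ < L` (otherwise the hull is in the
open half-plane, `convexHull_min`), so there are corners on both sides; among three corners one is separated from the two others: `∃ i, Iso T A f i` (cases on the three truth values; `fin_cases`/`decide`-style: `simp [Iso]`, `tauto`). (ii) If `A` or its complement is empty: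
by (i) no `f ≠ o` is met: left alternative. (iii) Otherwise `halves` gives `Split T A`; for `f = o`: all vertices are in `ctri p o`, so if all corners of `o` were on one side of the line all vertices would be; so `∃ i, Iso T A o i`. -/

namespace LU56
open LS35

variable {V F : Type} [Fintype V] [Fintype F] (T : Tri V F)

private theorem lt_of_hull (p : V → ℝ × ℝ) (α β γ : ℝ) (f : F)
    (h : ∀ i, α * (p (T.vt f i)).1 + β * (p (T.vt f i)).2 < γ) :
    ∀ x ∈ T.ctri p f, α * x.1 + β * x.2 < γ := by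
  have hconv : Convex ℝ {x : ℝ × ℝ | α * x.1 + β * x.2 < γ} := by
    intro x hx y hy a b ha hb hab
    simp only [Set.mem_setOf_eq] at hx hy ⊢
    have h1 : α * (a • x + b • y).1 + β * (a • x + b • y).2 =
        a * (α * x.1 + β * x.2) + b * (α * y.1 + β * y.2) := by
      simp only [Prod.fst_add, Prod.snd_add, Prod.smul_fst, Prod.smul_snd, smul_eq_mul]
      ring
    rw [h1]
    have hg : γ = a * γ + b * γ := by rw [← add_mul, hab, one_mul]
    rcases lt_or_eq_of_le ha with ha' | ha'
    · have e1 := mul_lt_mul_of_pos_left hx ha'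
      have e2 := mul_le_mul_of_nonneg_left hy.le hb
      linarith
    · have hb1 : b = 1 := by linarith
      rw [← ha', hb1]
      linarith
  have hsub : T.ctri p f ⊆ {x : ℝ × ℝ | α * x.1 + β * x.2 < γ} := by
    apply convexHull_min _ hconv
    rintro _ ⟨i, rfl⟩
    exact h i
  intro x hx
  exact hsub hx

private theorem gt_of_hull (p : V → ℝ × ℝ) (α β γ : ℝ) (f : F)
    (h : ∀ i, γ < α * (p (T.vt f i)).1 + β * (p (T.vt f i)).2) :
    ∀ x ∈ T.ctri p f, γ < α * x.1 + β * x.2 := by
  intro x hx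
  have := lt_of_hull T p (-α) (-β) (-γ) f (fun i => by have := h i; linarith) x hx
  linarith

private theorem iso_of_mixed (A : Set V) (f : F) (h1 : ∃ i, T.vt f i ∈ A) (h2 : ∃ i, T.vt f i ∉ A) :
    ∃ i, Iso T A f i := by
  have c0 : ((0 : Fin 3) + 1) = 1 := rfl
  have c1 : ((0 : Fin 3) + 2) = 2 := rfl
  have c2 : ((1 : Fin 3) + 1) = 2 := rfl
  have c3 : ((1 : Fin 3) + 2) = 0 := rfl
  have c4 : ((2 : Fin 3) + 1) = 0 := rfl
  have c5 : ((2 : Fin 3) + 2) = 1 := rfl
  have h1' : T.vt f 0 ∈ A ∨ T.vt f 1 ∈ A ∨ T.vt f 2 ∈ A := by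
    obtain ⟨i, hi⟩ := h1
    fin_cases i
    · exact Or.inl hi
    · exact Or.inr (Or.inl hi)
    · exact Or.inr (Or.inr hi)
  have h2' : T.vt f 0 ∉ A ∨ T.vt f 1 ∉ A ∨ T.vt f 2 ∉ A := by
    obtain ⟨i, hi⟩ := h2
    fin_cases i
    · exact Or.inl hi
    · exact Or.inr (Or.inl hi)
    · exact Or.inr (Or.inr hi)
  by_cases a0 : T.vt f 0 ∈ A <;> by_cases a1 : T.vt f 1 ∈ A <;> by_cases a2 : T.vt f 2 ∈ A
  · exfalso; tauto
  · refine ⟨2, ?_⟩
    simp only [Iso, c4, c5]
    tauto
  · refine ⟨1, ?_⟩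
    simp only [Iso, c2, c3]
    tauto
  · refine ⟨0, ?_⟩
    simp only [Iso, c0, c1]
    tauto
  · refine ⟨0, ?_⟩
    simp only [Iso, c0, c1]
    tauto
  · refine ⟨1, ?_⟩
    simp only [Iso, c2, c3]
    tauto
  · refine ⟨2, ?_⟩
    simp only [Iso, c4, c5]
    tauto
  · exfalso; tauto

theorem visited (p : V → ℝ × ℝ) (hp : T.IsDrawing p) (α β γ : ℝ)
    (hinj : Function.Injective fun v => α * (p v).1 + β * (p v).2) (hγ : ∀ v, α * (p v).1 + β * (p v).2 ≠ γ) :
    (∃ o, ∀ f, (T.region p f ∩ line α β γ).Nonempty → f = o) ∨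
      (Split T {v | γ < α * (p v).1 + β * (p v).2} ∧
        ∀ f, (T.region p f ∩ line α β γ).Nonempty → ∃ i, Iso T {v | γ < α * (p v).1 + β * (p v).2} f i) := by
  obtain ⟨o, σ, -, -, -, -, hall, hreg⟩ := T.structure_drawing p hp
  have hlow : ∀ f : F, (¬ ∃ i, γ < α * (p (T.vt f i)).1 + β * (p (T.vt f i)).2) →
      ∀ x ∈ T.ctri p f, α * x.1 + β * x.2 < γ := by
    intro f h
    apply lt_of_hull T p α β γ f
    intro i
    exact lt_of_le_of_ne (not_lt.1 fun hi => h ⟨i, hi⟩) (hγ _)
  have hhigh : ∀ f : F, (¬ ∃ i, ¬ γ < α * (p (T.vt f i)).1 + β * (p (T.vt f i)).2) →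
      ∀ x ∈ T.ctri p f, γ < α * x.1 + β * x.2 := by
    intro f h
    apply gt_of_hull T p α β γ f
    intro i
    by_contra hi
    exact h ⟨i, hi⟩
  have hmix : ∀ f, f ≠ o → (T.region p f ∩ line α β γ).Nonempty →
      (∃ i, γ < α * (p (T.vt f i)).1 + β * (p (T.vt f i)).2) ∧
        (∃ i, ¬ γ < α * (p (T.vt f i)).1 + β * (p (T.vt f i)).2) := by
    rintro f hf ⟨x, hx, hxl⟩
    rw [(hreg f hf).1] at hx
    have hx' : x ∈ T.ctri p f := interior_subset hx
    have hxl' : α * x.1 + β * x.2 = γ := hxl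
    constructor
    · by_contra h
      exact absurd (hlow f h x hx') (by rw [hxl']; exact lt_irrefl _)
    · by_contra h
      exact absurd (hhigh f h x hx') (by rw [hxl']; exact lt_irrefl _)
  by_cases h1 : ∃ v, γ < α * (p v).1 + β * (p v).2
  · by_cases h2 : ∃ v, ¬ γ < α * (p v).1 + β * (p v).2
    · right
      refine ⟨halves T p hp α β γ hinj h1 h2, ?_⟩
      intro f hf
      have hboth : (∃ i, γ < α * (p (T.vt f i)).1 + β * (p (T.vt f i)).2) ∧
          (∃ i, ¬ γ < α * (p (T.vt f i)).1 + β * (p (T.vt f i)).2) := by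
        by_cases hfo : f = o
        · subst hfo
          constructor
          · by_contra h
            obtain ⟨v, hv⟩ := h1
            exact absurd (hlow f h (p v) (hall v)) (not_lt.2 hv.le)
          · by_contra h
            obtain ⟨v, hv⟩ := h2
            exact hv (hhigh f h (p v) (hall v))
        · exact hmix f hfo hf
      exact iso_of_mixed T _ f hboth.1 hboth.2
    · left
      refine ⟨o, fun f hf => ?_⟩
      by_contra hfo
      obtain ⟨i, hi⟩ := (hmix f hfo hf).2
      exact h2 ⟨_, hi⟩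
  · left
    refine ⟨o, fun f hf => ?_⟩
    by_contra hfo
    obtain ⟨i, hi⟩ := (hmix f hfo hf).1
    exact h1 ⟨_, hi⟩

end LU56
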