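import Pool.Agent.LibLU56.A3
import Pool.Agent.LibLU56.A4

/-! A5 (chair). Splittings bound the number of stabbed faces. -/

namespace LU56
open LS35

variable {V F : Type} [Fintype V] [Fintype F] (T : Tri V F)

open Classical in
theorem stab_le (M : Finset F) (c : ℕ) (hc : 1 ≤ c)
    (h : ∀ A : Set V, Split T A → (M.filter fun f => ∃ i, Iso T A f i).card ≤ c) (p : V → ℝ × ℝ) (hp : T.IsDrawing p)
    (α β γ : ℝ) (hαβ : α ≠ 0 ∨ β ≠ 0) : (M.filter fun f => (T.region p f ∩ line α β γ).Nonempty).card ≤ c := by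
  obtain ⟨α', β', γ', hinj, hγ, hM⟩ := generic_line T p hp (M.filter fun f => (T.region p f ∩ line α β γ).Nonempty) α β γ hαβ
    (fun f hf => (Finset.mem_filter.1 hf).2)
  rcases visited T p hp α' β' γ' hinj hγ with ⟨o, ho⟩ | ⟨hs, hv⟩
  · refine le_trans ?_ hc
    refine le_trans (Finset.card_le_card (t := {o}) fun f hf => ?_) (by simp)
    exact Finset.mem_singleton.2 (ho f (hM f hf))
  · refine le_trans (Finset.card_le_card fun f hf => ?_) (h _ hs)
    exact Finset.mem_filter.2 ⟨(Finset.mem_filter.1 hf).1, hv f (hM f hf)⟩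

end LU56
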