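import Pool.Agent.LibLU56.Ins

/-! Row B1 (SHORT/MEDIUM). Walks between old vertices can be pushed to `T1`.
PLAN. Induction over the walk from `oldV u` (`Relation.ReflTransGen.head_induction_on` or `induction h` with the endpoint general): CLAIM for every `x` reached: if `x = oldV w` then `w` is reached from `u` in `T1` (inside `P`), and if `x = emb f w` with
`w` no corner of `t0` (`IV_cases`) then for SOME corner `j` of `f` the vertex `T1.vt f j` satisfies `P ∘ oldV` and is reached from `u`. A step `x → y` of the new graph is a dart of a face `a`: `ivt a i = x`, `ivt a (i+1) = y` (`ins_vt`). `a` old (`IF_cases`, `ivt_old`): both are old,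
a dart of `T1`. `a = newF f g`: both are `emb f _` (`ivt_new`); if one of them is old it is a corner of `f` (`emb_eq_old`), and two different corners of `f` are adjacent in `T1` (`Adj`: `T1.vt f i, T1.vt f (i+1)`, and the reversed dart by `T1.opp`): so: old `x`, old `y`: adjacent or equal
corners; old `x`, new `y`: take the corner `x`; new `x` (in the copy `f'`, so `f' = f` by `emb_new`), new `y`: same corner; new `x`, old `y`: `y` is a corner of `f`, equal or adjacent to the corner that was reached, and `P y`. For `u = v` etc. use `refl`. -/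

namespace LU56
open LS35

variable {V1 F1 V2 F2 : Type} [Fintype V1] [Fintype F1] [Fintype V2] [Fintype F2]
  (T1 : Tri V1 F1) (M1 : Finset F1) (T2 : Tri V2 F2) (t0 : F2)

private theorem B1_fin : ∀ j k : Fin 3, k ≠ j → k = j + 1 ∨ k = j + 2 := by decide

private theorem B1_fin2 : ∀ j : Fin 3, j + 2 + 1 = j := by decide

private theorem B1_adj {V F : Type} [Fintype V] [Fintype F] (T : Tri V F) (f : F) (j k : Fin 3)
    (h : k ≠ j) : T.Adj (T.vt f j) (T.vt f k) := by
  rcases B1_fin j k h with rfl | rfl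
  · exact ⟨f, j, rfl, rfl⟩
  · obtain ⟨g, l, h1, h2⟩ := T.opp f (j + 2)
    rw [B1_fin2] at h1
    exact ⟨g, l, h1, h2⟩

theorem walk_old (P : IV V1 M1 T2 t0 → Prop) (u v : V1)
    (h : Relation.ReflTransGen (fun a b => (ins T1 M1 T2 t0).Adj a b ∧ P a ∧ P b) (oldV M1 T2 t0 u) (oldV M1 T2 t0 v)) :
    Relation.ReflTransGen (fun a b => T1.Adj a b ∧ P (oldV M1 T2 t0 a) ∧ P (oldV M1 T2 t0 b)) u v := by
  have key : ∀ x, Relation.ReflTransGen (fun a b => (ins T1 M1 T2 t0).Adj a b ∧ P a ∧ P b)
      (oldV M1 T2 t0 u) x →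
      (∀ w, x = oldV M1 T2 t0 w →
        Relation.ReflTransGen (fun a b => T1.Adj a b ∧ P (oldV M1 T2 t0 a) ∧ P (oldV M1 T2 t0 b)) u w) ∧
      (∀ f v, ¬ T2.At t0 v → x = emb T1 M1 T2 t0 f v → ∃ j : Fin 3, P (oldV M1 T2 t0 (T1.vt f.1 j)) ∧
        Relation.ReflTransGen (fun a b => T1.Adj a b ∧ P (oldV M1 T2 t0 a) ∧ P (oldV M1 T2 t0 b)) u
          (T1.vt f.1 j)) := by
    intro x hx
    induction hx with
    | refl =>
      refine ⟨?_, ?_⟩
      · intro w hw
        rw [oldV_inj M1 T2 t0 hw]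
      · intro f v hv hvu
        obtain ⟨j, hj, -⟩ := emb_eq_old T1 M1 T2 t0 f v u hvu.symm
        exact absurd ⟨j, hj.symm⟩ hv
    | @tail x y _ hxy ih =>
      obtain ⟨⟨a, i, hax, hay⟩, hPx, hPy⟩ := hxy
      obtain ⟨ih1, ih2⟩ := ih
      rw [ins_vt] at hax hay
      rcases IF_cases M1 t0 a with ⟨f, hf, rfl⟩ | ⟨f, g, hg, rfl⟩
      · rw [ivt_old] at hax hay
        subst hax
        subst hay
        refine ⟨?_, ?_⟩
        · intro w hw
          rw [← oldV_inj M1 T2 t0 hw]
          exact (ih1 _ rfl).tail ⟨⟨f, i, rfl, rfl⟩, hPx, hPy⟩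
        · intro f' v hv hvu
          obtain ⟨j, hj, -⟩ := emb_eq_old T1 M1 T2 t0 f' v _ hvu.symm
          exact absurd ⟨j, hj.symm⟩ hv
      · rw [ivt_new] at hax hay
        subst hax
        subst hay
        obtain ⟨j, hPj, hj⟩ : ∃ j : Fin 3, P (oldV M1 T2 t0 (T1.vt f.1 j)) ∧
            Relation.ReflTransGen (fun a b => T1.Adj a b ∧ P (oldV M1 T2 t0 a) ∧
              P (oldV M1 T2 t0 b)) u (T1.vt f.1 j) := by
          by_cases hat : T2.At t0 (T2.vt g i)
          · obtain ⟨l, hl⟩ := hat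
            have e : emb T1 M1 T2 t0 f (T2.vt g i) = oldV M1 T2 t0 (T1.vt f.1 (-l)) := by
              rw [← hl, emb_corner]
            exact ⟨-l, e ▸ hPx, ih1 _ e⟩
          · exact ih2 f _ hat rfl
        refine ⟨?_, ?_⟩
        · intro w hw
          obtain ⟨l, hl, hwl⟩ := emb_eq_old T1 M1 T2 t0 f _ _ hw
          rw [hw] at hPy
          by_cases hjl : -l = j
          · rw [hwl, hjl]
            exact hj
          · refine hj.tail ⟨?_, hPj, hPy⟩
            rw [hwl]
            exact B1_adj T1 f.1 j (-l) hjl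
        · intro f' v' hv' hvu
          obtain ⟨rfl, -⟩ := emb_new T1 M1 T2 t0 f' f v' _ hv' hvu.symm
          exact ⟨j, hPj, hj⟩
  exact (key _ h).1 v rfl

end LU56
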