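import Pool.Agent.LibLU56.Ins

/-! Row B2 (MEDIUM). Walks between vertices of one copy can be pushed to `T2`.
PLAN. Let `e = emb T1 M1 T2 t0 f`. Induction over the walk from `e u`: CLAIM for every `x` reached: if `x = e w` then `w` is reached from `u` in `T2` (inside `P ∘ e`), and if `x` is not of the form `e w` then for SOME corner `j` of `t0` the vertex `T2.vt t0 j` satisfies
`P ∘ e` and is reached from `u`. A step `x → y` is a dart of a face `a` of the new triangulation (`ins_vt`). If `a = newF f g`: both ends are in the copy `f`: `x = e w`, `y = e w'` with `w, w'` a dart of `T2` (`emb_inj`). Otherwise (`a` an old face or a face of another copy `f'`): every vertex of `a`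
that is in the copy `f` (i.e. equal to some `e w`) is a corner `e (T2.vt t0 j)` of `f`: old face: `e w = oldV _`, `emb_eq_old`; copy `f'`: `emb_new` gives that it cannot be an inner vertex of one of them, so it is old, `emb_eq_old`. Two corners of `t0` are equal or adjacent in `T2`
(`T2.vt t0 i, T2.vt t0 (i+1)` and the reversed dart by `T2.opp`). Cases: `x`, `y` both in the copy (corners): adjacent or equal; `x` in, `y` out: take the corner `x`; `x` out, `y` out: same corner; `x` out, `y` in: `y` is a corner, `P y`, equal or adjacent to the corner reached before. -/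

namespace LU56
open LS35

variable {V1 F1 V2 F2 : Type} [Fintype V1] [Fintype F1] [Fintype V2] [Fintype F2]
  (T1 : Tri V1 F1) (M1 : Finset F1) (T2 : Tri V2 F2) (t0 : F2)

private theorem B2_fin : ∀ j j' : Fin 3, j' = j ∨ j' = j + 1 ∨ j = j' + 1 := by decide

theorem walk_new (f : {f : F1 // f ∈ M1}) (P : IV V1 M1 T2 t0 → Prop) (u v : V2)
    (h : Relation.ReflTransGen (fun a b => (ins T1 M1 T2 t0).Adj a b ∧ P a ∧ P b) (emb T1 M1 T2 t0 f u)
      (emb T1 M1 T2 t0 f v)) :
    Relation.ReflTransGen (fun a b => T2.Adj a b ∧ P (emb T1 M1 T2 t0 f a) ∧ P (emb T1 M1 T2 t0 f b)) u v := by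
  have key : ∀ x : IV V1 M1 T2 t0,
      Relation.ReflTransGen (fun a b => (ins T1 M1 T2 t0).Adj a b ∧ P a ∧ P b) (emb T1 M1 T2 t0 f u) x →
      (∀ w, x = emb T1 M1 T2 t0 f w → Relation.ReflTransGen
        (fun a b => T2.Adj a b ∧ P (emb T1 M1 T2 t0 f a) ∧ P (emb T1 M1 T2 t0 f b)) u w) ∧
      ((¬ ∃ w, x = emb T1 M1 T2 t0 f w) → ∃ j, P (emb T1 M1 T2 t0 f (T2.vt t0 j)) ∧ Relation.ReflTransGen
        (fun a b => T2.Adj a b ∧ P (emb T1 M1 T2 t0 f a) ∧ P (emb T1 M1 T2 t0 f b)) u (T2.vt t0 j)) := by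
    intro x hx
    induction hx with
    | refl =>
      refine ⟨fun w hw => ?_, fun hn => absurd ⟨u, rfl⟩ hn⟩
      rw [emb_inj T1 M1 T2 t0 f hw]
    | @tail x y _ hxy ih =>
      obtain ⟨ih1, ih2⟩ := ih
      obtain ⟨⟨a, i, h1, h2⟩, hPx, hPy⟩ := hxy
      rw [ins_vt] at h1 h2
      by_cases ha : ∃ g hg, a = newF M1 t0 f g hg
      · obtain ⟨g, hg, rfl⟩ := ha
        rw [ivt_new] at h1 h2
        have hR := ih1 _ h1.symm
        have hR2 := hR.tail (c := T2.vt g (i + 1)) ⟨⟨g, i, rfl, rfl⟩, by rw [h1]; exact hPx, by rw [h2]; exact hPy⟩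
        refine ⟨fun w hw => ?_, fun hn => absurd ⟨_, h2.symm⟩ hn⟩
        rw [← h2] at hw
        rw [← emb_inj T1 M1 T2 t0 f hw]
        exact hR2
      · have hstar : ∀ k w, ivt T1 M1 T2 t0 a k = emb T1 M1 T2 t0 f w → ∃ j, w = T2.vt t0 j := by
          intro k w hk
          rcases IF_cases (F1 := F1) M1 t0 a with ⟨g, hg, rfl⟩ | ⟨f', g, hg, rfl⟩
          · rw [ivt_old] at hk
            obtain ⟨j, hj, -⟩ := emb_eq_old T1 M1 T2 t0 f w _ hk.symm
            exact ⟨j, hj⟩
          · rw [ivt_new] at hk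
            by_cases hw : T2.At t0 w
            · obtain ⟨j, hj⟩ := hw
              exact ⟨j, hj.symm⟩
            · obtain ⟨rfl, -⟩ := emb_new T1 M1 T2 t0 f f' w _ hw hk.symm
              exact absurd ⟨g, hg, rfl⟩ ha
        have hcor : ∀ j j' : Fin 3, Relation.ReflTransGen
            (fun a b => T2.Adj a b ∧ P (emb T1 M1 T2 t0 f a) ∧ P (emb T1 M1 T2 t0 f b)) u (T2.vt t0 j) →
            P (emb T1 M1 T2 t0 f (T2.vt t0 j)) → P (emb T1 M1 T2 t0 f (T2.vt t0 j')) →
            Relation.ReflTransGen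
            (fun a b => T2.Adj a b ∧ P (emb T1 M1 T2 t0 f a) ∧ P (emb T1 M1 T2 t0 f b)) u (T2.vt t0 j') := by
          intro j j' hR hP hP'
          rcases B2_fin j j' with h | h | h
          · rw [h]; exact hR
          · exact hR.tail ⟨⟨t0, j, rfl, by rw [h]⟩, hP, hP'⟩
          · obtain ⟨g, k, hg1, hg2⟩ := T2.opp t0 j'
            exact hR.tail ⟨⟨g, k, by rw [hg1, h], hg2⟩, hP, hP'⟩
        -- the vertex `x`
        have hx' : ∃ j, P (emb T1 M1 T2 t0 f (T2.vt t0 j)) ∧ Relation.ReflTransGen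
            (fun a b => T2.Adj a b ∧ P (emb T1 M1 T2 t0 f a) ∧ P (emb T1 M1 T2 t0 f b)) u (T2.vt t0 j) := by
          by_cases hxc : ∃ w, x = emb T1 M1 T2 t0 f w
          · obtain ⟨w, hw⟩ := hxc
            obtain ⟨j, hj⟩ := hstar i w (h1.trans hw)
            refine ⟨j, ?_, ?_⟩
            · rw [← hj, ← hw]; exact hPx
            · rw [← hj]; exact ih1 w hw
          · exact ih2 hxc
        refine ⟨fun w hw => ?_, fun _ => hx'⟩
        obtain ⟨j', hj'⟩ := hstar (i + 1) w (h2.trans hw)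
        obtain ⟨j, hj1, hj2⟩ := hx'
        rw [hj']
        refine hcor j j' hj2 hj1 ?_
        rw [← hj', ← hw]
        exact hPy
  exact (key _ h).1 v rfl

end LU56
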