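import Pool.Agent.LibLU56.Ins

/-! Row B3 (SHORT/MEDIUM). A walk that leaves the interior of a copy passes through a corner.
PLAN. Contraposition: suppose no corner `emb f (T2.vt t0 j)` satisfies `P`. By induction over the walk every vertex reached from `emb f v` is `emb f v2` with `v2` no corner of `t0`: a step `x = emb f v2 → y` is a dart of a face `a` (`ins_vt`); `a` is not old (an old face has only
old corners, `emb_eq_old` would make `v2` a corner), so `a = newF f' g`, and `f' = f` by `emb_new`; so `y = emb f (T2.vt g _)`; if this is a corner of `t0` then `P y` contradicts the assumption. -/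

namespace LU56
open LS35

variable {V1 F1 V2 F2 : Type} [Fintype V1] [Fintype F1] [Fintype V2] [Fintype F2]
  (T1 : Tri V1 F1) (M1 : Finset F1) (T2 : Tri V2 F2) (t0 : F2)

theorem leave (f : {f : F1 // f ∈ M1}) (P : IV V1 M1 T2 t0 → Prop) (v : V2) (hv : ¬ T2.At t0 v) (y : IV V1 M1 T2 t0)
    (hy : ¬ ∃ v2, ¬ T2.At t0 v2 ∧ y = emb T1 M1 T2 t0 f v2)
    (h : Relation.ReflTransGen (fun a b => (ins T1 M1 T2 t0).Adj a b ∧ P a ∧ P b) (emb T1 M1 T2 t0 f v) y) :
    ∃ j, P (emb T1 M1 T2 t0 f (T2.vt t0 j)) := by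
  by_contra hno
  refine hy ?_
  clear hy
  induction h with
  | refl => exact ⟨v, hv, rfl⟩
  | @tail b c _ hbc ih =>
    obtain ⟨v2, hv2, hb⟩ := ih
    obtain ⟨⟨a, i, h1, h2⟩, _, hPc⟩ := hbc
    rw [ins_vt] at h1 h2
    rcases IF_cases (F1 := F1) M1 t0 a with ⟨k, hk, rfl⟩ | ⟨f', g, hg, rfl⟩
    · rw [ivt_old, hb] at h1
      obtain ⟨j, hj, -⟩ := emb_eq_old T1 M1 T2 t0 f v2 _ h1.symm
      exact absurd ⟨j, hj.symm⟩ hv2
    · rw [ivt_new, hb] at h1
      rw [ivt_new] at h2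
      obtain ⟨rfl, -⟩ := emb_new T1 M1 T2 t0 f f' v2 _ hv2 h1.symm
      refine ⟨T2.vt g (i + 1), ?_, h2.symm⟩
      rintro ⟨j, hj⟩
      refine hno ⟨j, ?_⟩
      rw [hj, h2]
      exact hPc

end LU56
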