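import Pool.Agent.LibLU56.B1
import Pool.Agent.LibLU56.B2
import Pool.Agent.LibLU56.B3

/-! Chair: restriction of splittings. -/

namespace LU56
open LS35

variable {V1 F1 V2 F2 : Type} [Fintype V1] [Fintype F1] [Fintype V2] [Fintype F2]
  (T1 : Tri V1 F1) (M1 : Finset F1) (T2 : Tri V2 F2) (t0 : F2)

theorem split_old (A : Set (IV V1 M1 T2 t0)) (hs : Split (ins T1 M1 T2 t0) A) (h1 : ∃ v, oldV M1 T2 t0 v ∈ A)
    (h2 : ∃ v, oldV M1 T2 t0 v ∉ A) : Split T1 {v | oldV M1 T2 t0 v ∈ A} where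
  ne := h1
  nec := h2
  con := fun u hu v hv => walk_old T1 M1 T2 t0 (fun x => x ∈ A) u v (hs.con _ hu _ hv)
  conc := fun u hu v hv => walk_old T1 M1 T2 t0 (fun x => x ∉ A) u v (hs.conc _ hu _ hv)

theorem split_new (f : {f : F1 // f ∈ M1}) (A : Set (IV V1 M1 T2 t0)) (hs : Split (ins T1 M1 T2 t0) A)
    (h1 : ∃ v, emb T1 M1 T2 t0 f v ∈ A) (h2 : ∃ v, emb T1 M1 T2 t0 f v ∉ A) :
    Split T2 {v | emb T1 M1 T2 t0 f v ∈ A} where
  ne := h1
  nec := h2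
  con := fun u hu v hv => walk_new T1 M1 T2 t0 f (fun x => x ∈ A) u v (hs.con _ hu _ hv)
  conc := fun u hu v hv => walk_new T1 M1 T2 t0 f (fun x => x ∉ A) u v (hs.conc _ hu _ hv)

/-- if some old vertex is not in `A` and all corners of `f` are in `A` then the whole copy `f` is in `A` -/
theorem all_in (f : {f : F1 // f ∈ M1}) (A : Set (IV V1 M1 T2 t0)) (hs : Split (ins T1 M1 T2 t0) A)
    (h2 : ∃ v, oldV M1 T2 t0 v ∉ A) (hc : ∀ j, oldV M1 T2 t0 (T1.vt f.1 j) ∈ A) (v : V2) :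
    emb T1 M1 T2 t0 f v ∈ A := by
  by_cases hv : T2.At t0 v
  · obtain ⟨j, rfl⟩ := hv
    rw [emb_corner]
    exact hc _
  · by_contra hv2
    obtain ⟨w, hw⟩ := h2
    obtain ⟨j, hj⟩ := leave T1 M1 T2 t0 f (fun x => x ∉ A) v hv (oldV M1 T2 t0 w)
      (by
        rintro ⟨v2, h3, h4⟩
        obtain ⟨j, rfl, _⟩ := emb_eq_old T1 M1 T2 t0 f v2 w h4.symm
        exact h3 ⟨j, rfl⟩) (hs.conc _ hv2 _ hw)
    rw [emb_corner] at hj
    exact hj (hc _)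

/-- if some old vertex is in `A` and no corner of `f` is in `A` then nothing of the copy `f` is in `A` -/
theorem all_out (f : {f : F1 // f ∈ M1}) (A : Set (IV V1 M1 T2 t0)) (hs : Split (ins T1 M1 T2 t0) A)
    (h2 : ∃ v, oldV M1 T2 t0 v ∈ A) (hc : ∀ j, oldV M1 T2 t0 (T1.vt f.1 j) ∉ A) (v : V2) :
    emb T1 M1 T2 t0 f v ∉ A := by
  by_cases hv : T2.At t0 v
  · obtain ⟨j, rfl⟩ := hv
    rw [emb_corner]
    exact hc _
  · intro hv2
    obtain ⟨w, hw⟩ := h2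
    obtain ⟨j, hj⟩ := leave T1 M1 T2 t0 f (fun x => x ∈ A) v hv (oldV M1 T2 t0 w)
      (by
        rintro ⟨v2, h3, h4⟩
        obtain ⟨j, rfl, _⟩ := emb_eq_old T1 M1 T2 t0 f v2 w h4.symm
        exact h3 ⟨j, rfl⟩) (hs.con _ hv2 _ hw)
    rw [emb_corner] at hj
    exact hc _ hj

end LU56
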