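import Pool.Agent.LibLU56.B4

/-! Row B5 (MEDIUM/STRONG). One insertion does not increase the bound for the weights.
PLAN. Write `T' = ins T1 {f} T2 t0`, `e = emb T1 {f} T2 t0 ⟨f, _⟩`, `A = {v | oldV v ∈ A'}`, `B = {v | e v ∈ A'}`. The sum `Pot T'` over `IF` splits (`Fintype.sum_sum_type`, `Fintype.sum_prod_type`, `Finset.sum_subtype`; the subtype `{f' // f' ∈ {f}}` is `Unique`) into
(I) `∑ g ≠ f, lw T1 q s o (lab g) A g` (for an old face `g`, `Iso T' A' (oldF g) i ↔ Iso T1 A g i` since `ivt (oldF g) i = oldV (T1.vt g i)`, so `wgt` and `lw` are equal) and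
(II) `∑ g ≠ t0, lw T' q s o ((hl g).map (fun x => (x.1, k - x.2))) A' (newF f g)`; `Iso T' A' (newF f g) i ↔ Iso T2 B g i` (`ivt_new`), and `q^(k-d) = q^k (q⁻¹)^d` since `d ≤ 61 ≤ k`, so (II) `= q^k * ∑ g, lw T2 q⁻¹ s o (hl g) B g` (the term `g = t0` is `0` because `hh.root : hl t0 = none`).
CASE 1: `A` is nonempty and not everything. `Split T1 A` (`split_old`), so `Pot T1 .. A ≤ c`, and `Pot T1 .. A = (I) + lw T1 q s o (lab f) A f`, so it is enough that (II) `≤ lw T1 q s o (some (τ, k)) A f = q^k * wgt T1 A f (s τ) (o τ)`.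
 1a: all corners of `f` are in `A` (or none): `all_in` (`all_out`): all of the copy is in `A'` (outside), so no `Iso T2 B g i`, (II) `= 0`; and `wgt ≥ 0`. 1b: otherwise `Iso T1 A f i` for exactly one `i`; `B` is nonempty and not everything, `Split T2 B` (`split_new`);
 `e (T2.vt t0 j) = oldV (T1.vt f (-j))` (`emb_corner`), so `Iso T2 B t0 (-i)` (`-(i+1) = -i+2`, the two other corners are exchanged), and `hh.wt B _ (-i) _` gives `∑ ≤ if -i = 0 then s τ else o τ = wgt T1 A f (s τ) (o τ)` (`Iso` holds for at most one corner).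
CASE 2: no old vertex is in `A'`, or all are: then no old face is two-coloured: (I) `= 0`; each summand of `∑ g, lw T2 q⁻¹ s o (hl g) B g` is at most `1` (`(q⁻¹)^d ≤ 1`, weights `≤ 1`), there are at most `16` (`hh.few`), so (II) `≤ q^k * 16 ≤ q^K * 16 ≤ c`. -/

namespace LU56
open LS35

variable {V1 F1 V2 F2 : Type} [Fintype V1] [Fintype F1] [Fintype V2] [Fintype F2]
  (T1 : Tri V1 F1) (T2 : Tri V2 F2) (t0 : F2)

private theorem B5_n1 : ∀ i : Fin 3, - (-i + 1) = i + 2 := by decide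

private theorem B5_n2 : ∀ i : Fin 3, - (-i + 2) = i + 1 := by decide

private theorem B5_inst {α : Type} (i1 i2 : Fintype α) (g : α → ℝ) :
    @Finset.sum α ℝ _ (@Finset.univ α i1) g = @Finset.sum α ℝ _ (@Finset.univ α i2) g := by
  rw [Subsingleton.elim i1 i2]

private theorem B5_sum (f : F1) (φ : IF (F1 := F1) ({f} : Finset F1) t0 → ℝ) (u : F1 → ℝ) (w : F2 → ℝ)
    (hu : ∀ g hg, φ (oldF ({f} : Finset F1) t0 g hg) = u g)
    (hw : ∀ g hg, φ (newF ({f} : Finset F1) t0 ⟨f, Finset.mem_singleton_self f⟩ g hg) = w g) (h0 : w t0 = 0) :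
    ∑ a, φ a + u f = ∑ g, u g + ∑ g, w g := by
  classical
  have h1 : ∑ a, φ a = ∑ x : {g : F1 // ¬ g ∈ ({f} : Finset F1)}, φ (Sum.inl x) +
      ∑ y : {f' : F1 // f' ∈ ({f} : Finset F1)} × {g : F2 // g ≠ t0}, φ (Sum.inr y) := by
    rw [← Fintype.sum_sum_type]
  have h2 : ∑ x : {g : F1 // ¬ g ∈ ({f} : Finset F1)}, φ (Sum.inl x) = ∑ x : {g : F1 // ¬ g ∈ ({f} : Finset F1)}, u x.1 :=
    Finset.sum_congr rfl fun x _ => hu x.1 x.2
  have h3 : ∑ x : {g : F1 // g ∈ ({f} : Finset F1)}, u x.1 = u f := by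
    rw [Finset.sum_coe_sort ({f} : Finset F1) u, Finset.sum_singleton]
  have h4 : ∑ x : {g : F1 // g ∈ ({f} : Finset F1)}, u x.1 + ∑ x : {g : F1 // ¬ g ∈ ({f} : Finset F1)}, u x.1 = ∑ g, u g := by
    have e := Fintype.sum_subtype_add_sum_subtype (fun g => g ∈ ({f} : Finset F1)) u
    exact (congrArg₂ (· + ·) (B5_inst _ _ _) (B5_inst _ _ _)).trans e
  have h5 : ∑ y : {f' : F1 // f' ∈ ({f} : Finset F1)} × {g : F2 // g ≠ t0}, φ (Sum.inr y) =
      ∑ y : {g : F2 // ¬ g = t0}, w y.1 := by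
    rw [Fintype.sum_prod_type]
    have h6 : ∀ x : {f' : F1 // f' ∈ ({f} : Finset F1)}, ∑ y : {g : F2 // g ≠ t0}, φ (Sum.inr (x, y)) =
        ∑ y : {g : F2 // ¬ g = t0}, w y.1 := by
      rintro ⟨x, hx⟩
      obtain rfl := Finset.mem_singleton.1 hx
      exact Finset.sum_congr rfl fun y _ => hw y.1 y.2
    rw [Finset.sum_congr rfl fun x _ => h6 x,
      Finset.sum_coe_sort ({f} : Finset F1) (fun _ => ∑ y : {g : F2 // ¬ g = t0}, w y.1), Finset.sum_singleton]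
  have h7 : ∑ x : {g : F2 // g = t0}, w x.1 + ∑ x : {g : F2 // ¬ g = t0}, w x.1 = ∑ g, w g := by
    have e := Fintype.sum_subtype_add_sum_subtype (fun g => g = t0) w
    exact (congrArg₂ (· + ·) (B5_inst _ _ _) (B5_inst _ _ _)).trans e
  have h8 : ∑ x : {g : F2 // g = t0}, w x.1 = 0 := by
    apply Fintype.sum_eq_zero
    rintro ⟨x, hx⟩
    show w x = 0
    rw [hx, h0]
  linarith

private theorem B5_wgt_nonneg {V F : Type} [Fintype V] [Fintype F] (T : Tri V F) (A : Set V) (g : F) (a b : ℝ)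
    (ha : 0 ≤ a) (hb : 0 ≤ b) : 0 ≤ wgt T A g a b := by
  unfold wgt
  split_ifs
  · exact ha
  · exact hb
  · exact le_refl _

private theorem B5_wgt_le {V F : Type} [Fintype V] [Fintype F] (T : Tri V F) (A : Set V) (g : F) (a b : ℝ)
    (ha : a ≤ 1) (hb : b ≤ 1) : wgt T A g a b ≤ 1 := by
  unfold wgt
  split_ifs
  · exact ha
  · exact hb
  · exact zero_le_one

private theorem B5_wgt_zero {V F : Type} [Fintype V] [Fintype F] (T : Tri V F) (A : Set V) (g : F) (a b : ℝ)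
    (h : ∀ i j, T.vt g i ∈ A ↔ T.vt g j ∈ A) : wgt T A g a b = 0 := by
  have hI : ∀ i, ¬ Iso T A g i := fun i hi => hi.2 (h _ _)
  unfold wgt
  rw [if_neg (hI 0), if_neg (by rintro (h1 | h1); exacts [hI 1 h1, hI 2 h1])]

private theorem B5_lw_zero {V F : Type} [Fintype V] [Fintype F] (T : Tri V F) (q : ℝ) (s o : Fin 2 → ℝ) (l : Lab)
    (A : Set V) (g : F) (h : ∀ i j, T.vt g i ∈ A ↔ T.vt g j ∈ A) : lw T q s o l A g = 0 := by
  rcases l with _ | ⟨σ, d⟩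
  · rfl
  · show q ^ d * wgt T A g (s σ) (o σ) = 0
    rw [B5_wgt_zero T A g _ _ h, mul_zero]

private theorem B5_exists (P : Fin 3 → Prop) (h1 : ∃ i, P i) (h2 : ∃ i, ¬ P i) :
    ∃ i, (P (i + 1) ↔ P (i + 2)) ∧ ¬ (P i ↔ P (i + 1)) := by
  have e : (0 : Fin 3) + 1 = 1 ∧ (0 : Fin 3) + 2 = 2 ∧ (1 : Fin 3) + 1 = 2 ∧ (1 : Fin 3) + 2 = 0 ∧ (2 : Fin 3) + 1 = 0 ∧
    (2 : Fin 3) + 2 = 1 := by decide
  obtain ⟨e1, e2, e3, e4, e5, e6⟩ := e
  by_contra hn
  have n0 := fun h => hn ⟨0, h⟩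
  have n1 := fun h => hn ⟨1, h⟩
  have n2 := fun h => hn ⟨2, h⟩
  rw [e1, e2] at n0
  rw [e3, e4] at n1
  rw [e5, e6] at n2
  have hall : (P 0 ↔ P 1) ∧ (P 1 ↔ P 2) := by tauto
  obtain ⟨i, hi⟩ := h1
  obtain ⟨j, hj⟩ := h2
  fin_cases i <;> fin_cases j <;> simp at hi hj <;> tauto

private theorem B5_wgt_iso {V F : Type} [Fintype V] [Fintype F] (T : Tri V F) (A : Set V) (g : F) (a b : ℝ) (i : Fin 3)
    (h : Iso T A g i) : wgt T A g a b = if -i = 0 then a else b := by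
  have e : (0 : Fin 3) + 1 = 1 ∧ (0 : Fin 3) + 2 = 2 ∧ (1 : Fin 3) + 1 = 2 ∧ (1 : Fin 3) + 2 = 0 ∧ (2 : Fin 3) + 1 = 0 ∧
    (2 : Fin 3) + 2 = 1 := by decide
  obtain ⟨e1, e2, e3, e4, e5, e6⟩ := e
  have n01 : Iso T A g 0 → ¬ Iso T A g 1 := by
    intro h1 h2
    have h3 := h1.1
    have h4 := h2.2
    rw [e1, e2] at h3
    rw [e3] at h4
    exact h4 h3
  have n02 : Iso T A g 0 → ¬ Iso T A g 2 := by
    intro h1 h2
    have h3 := h2.1
    have h4 := h1.2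
    rw [e5, e6] at h3
    rw [e1] at h4
    exact h4 h3
  have c : i = 0 ∨ i = 1 ∨ i = 2 := by
    fin_cases i <;> simp
  unfold wgt
  rcases c with rfl | rfl | rfl
  · rw [if_pos h, if_pos (by decide)]
  · rw [if_neg (fun h0 => n01 h0 h), if_pos (Or.inl h), if_neg (by decide)]
  · rw [if_neg (fun h0 => n02 h0 h), if_pos (Or.inr h), if_neg (by decide)]

private theorem B5_lw_le {V F : Type} [Fintype V] [Fintype F] (T : Tri V F) (q : ℝ) (hq : 1 ≤ q) (s o : Fin 2 → ℝ)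
    (hs : ∀ τ, 0 ≤ s τ ∧ s τ ≤ 1) (ho : ∀ τ, 0 ≤ o τ ∧ o τ ≤ 1) (l : Lab)
    (A : Set V) (g : F) : lw T q⁻¹ s o l A g ≤ 1 := by
  rcases l with _ | ⟨σ, d⟩
  · exact zero_le_one
  · show q⁻¹ ^ d * wgt T A g (s σ) (o σ) ≤ 1
    have h1 : q⁻¹ ^ d ≤ 1 := pow_le_one₀ (inv_nonneg.2 (by linarith)) (inv_le_one_of_one_le₀ hq)
    exact mul_le_one₀ h1 (B5_wgt_nonneg T A g _ _ (hs σ).1 (ho σ).1) (B5_wgt_le T A g _ _ (hs σ).2 (ho σ).2)

private theorem B5_new (q : ℝ) (hq : 1 ≤ q) (s o : Fin 2 → ℝ) (f : F1) (k : ℕ) (hk : 61 ≤ k) (l : Lab)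
    (hl : ∀ σ d, l = some (σ, d) → d ≤ 61) (A' : Set (IV V1 ({f} : Finset F1) T2 t0)) (g : F2) (hg : g ≠ t0) :
    lw (ins T1 {f} T2 t0) q s o (l.map fun x => (x.1, k - x.2)) A'
      (newF ({f} : Finset F1) t0 ⟨f, Finset.mem_singleton_self f⟩ g hg) =
    q ^ k * lw T2 q⁻¹ s o l {v | emb T1 {f} T2 t0 ⟨f, Finset.mem_singleton_self f⟩ v ∈ A'} g := by
  rcases l with _ | ⟨σ, d⟩
  · show (0 : ℝ) = q ^ k * 0
    rw [mul_zero]
  · have hd : d ≤ k := (hl σ d rfl).trans hk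
    have hq0 : q ≠ 0 := by
      intro h
      linarith
    show q ^ (k - d) * wgt T2 {v | emb T1 {f} T2 t0 ⟨f, Finset.mem_singleton_self f⟩ v ∈ A'} g (s σ) (o σ) =
      q ^ k * (q⁻¹ ^ d * wgt T2 {v | emb T1 {f} T2 t0 ⟨f, Finset.mem_singleton_self f⟩ v ∈ A'} g (s σ) (o σ))
    rw [pow_sub₀ q hq0 hd, inv_pow, mul_assoc]

theorem pot_step (q r : ℝ) (hq : 1 ≤ q) (s o n : Fin 2 → ℝ) (hs : ∀ τ, 0 ≤ s τ ∧ s τ ≤ 1) (ho : ∀ τ, 0 ≤ o τ ∧ o τ ≤ 1)
    (lab : F1 → Lab) (hl : F2 → Lab) (f : F1) (τ : Fin 2) (k K : ℕ) (hf : lab f = some (τ, k)) (hk : 61 ≤ k) (hK : k ≤ K)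
    (hh : Host q r s o n τ T2 t0 hl) (c : ℝ) (hc : 16 * q ^ K ≤ c)
    (h : ∀ A, Split T1 A → Pot T1 q s o lab A ≤ c)
    (A' : Set (IV V1 ({f} : Finset F1) T2 t0)) (hA' : Split (ins T1 {f} T2 t0) A') :
    Pot (ins T1 {f} T2 t0) q s o (iLab {f} t0 lab hl k) A' ≤ c := by
  classical
  set fm : {f' : F1 // f' ∈ ({f} : Finset F1)} := ⟨f, Finset.mem_singleton_self f⟩ with hfm
  set A : Set V1 := {v | oldV ({f} : Finset F1) T2 t0 v ∈ A'} with hA
  set B : Set V2 := {v | emb T1 {f} T2 t0 fm v ∈ A'} with hB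
  have hq0 : 0 < q := by linarith
  have hqk : 0 ≤ q ^ k := (pow_pos hq0 k).le
  have key : Pot (ins T1 {f} T2 t0) q s o (iLab {f} t0 lab hl k) A' + lw T1 q s o (lab f) A f =
      Pot T1 q s o lab A + ∑ g, q ^ k * lw T2 q⁻¹ s o (hl g) B g := by
    refine B5_sum t0 f (fun a => lw (ins T1 {f} T2 t0) q s o (iLab {f} t0 lab hl k a) A' a)
      (fun g => lw T1 q s o (lab g) A g) (fun g => q ^ k * lw T2 q⁻¹ s o (hl g) B g) ?_ ?_ ?_
    · intro g hg
      rfl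
    · intro g hg
      exact B5_new T1 T2 t0 q hq s o f k hk (hl g) (fun σ d h1 => (hh.delay g σ d h1).2) A' g hg
    · show q ^ k * lw T2 q⁻¹ s o (hl t0) B t0 = 0
      rw [hh.root]
      show q ^ k * (0 : ℝ) = 0
      rw [mul_zero]
  rw [← Finset.mul_sum] at key
  have hlf : lw T1 q s o (lab f) A f = q ^ k * wgt T1 A f (s τ) (o τ) := by
    rw [hf]
    rfl
  by_cases hc : (∃ v, oldV ({f} : Finset F1) T2 t0 v ∈ A') ∧ ∃ v, oldV ({f} : Finset F1) T2 t0 v ∉ A'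
  · obtain ⟨hc1, hc2⟩ := hc
    have hP : Pot T1 q s o lab A ≤ c := h A (split_old T1 {f} T2 t0 A' hA' hc1 hc2)
    have hS : ∑ g, lw T2 q⁻¹ s o (hl g) B g ≤ wgt T1 A f (s τ) (o τ) := by
      by_cases h1 : ∀ j, oldV ({f} : Finset F1) T2 t0 (T1.vt f j) ∈ A'
      · have h3 : ∀ v, v ∈ B := all_in T1 {f} T2 t0 fm A' hA' hc2 h1
        have h4 : ∑ g, lw T2 q⁻¹ s o (hl g) B g = 0 :=
          Finset.sum_eq_zero fun g _ => B5_lw_zero T2 _ s o _ B g fun i j => iff_of_true (h3 _) (h3 _)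
        rw [h4]
        exact B5_wgt_nonneg T1 A f _ _ (hs τ).1 (ho τ).1
      by_cases h2 : ∀ j, oldV ({f} : Finset F1) T2 t0 (T1.vt f j) ∉ A'
      · have h3 : ∀ v, v ∉ B := all_out T1 {f} T2 t0 fm A' hA' hc1 h2
        have h4 : ∑ g, lw T2 q⁻¹ s o (hl g) B g = 0 :=
          Finset.sum_eq_zero fun g _ => B5_lw_zero T2 _ s o _ B g fun i j => iff_of_false (h3 _) (h3 _)
        rw [h4]
        exact B5_wgt_nonneg T1 A f _ _ (hs τ).1 (ho τ).1
      push Not at h1 h2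
      obtain ⟨i, hi⟩ := B5_exists (fun j => oldV ({f} : Finset F1) T2 t0 (T1.vt f j) ∈ A') h2 h1
      have hcor : ∀ j, T2.vt t0 j ∈ B ↔ oldV ({f} : Finset F1) T2 t0 (T1.vt f (-j)) ∈ A' := by
        intro j
        show emb T1 {f} T2 t0 fm (T2.vt t0 j) ∈ A' ↔ _
        rw [emb_corner]
      have hiso : Iso T1 A f i := hi
      have e1 : - (-i + 1) = i + 2 := B5_n1 i
      have e2 : - (-i + 2) = i + 1 := B5_n2 i
      have hiso2 : Iso T2 B t0 (-i) := by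
        constructor
        · rw [hcor, hcor, e1, e2]
          exact hi.1.symm
        · rw [hcor, hcor, e1, neg_neg]
          intro h5
          exact hi.2 (h5.trans hi.1.symm)
      have hB1 : ∃ v, v ∈ B := by
        obtain ⟨j, hj⟩ := h2
        refine ⟨T2.vt t0 (-j), ?_⟩
        rw [hcor, neg_neg]
        exact hj
      have hB2 : ∃ v, v ∉ B := by
        obtain ⟨j, hj⟩ := h1
        refine ⟨T2.vt t0 (-j), ?_⟩
        rw [hcor, neg_neg]
        exact hj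
      have h6 := hh.wt B (split_new T1 {f} T2 t0 fm A' hA' hB1 hB2) (-i) hiso2
      rw [B5_wgt_iso T1 A f (s τ) (o τ) i hiso]
      exact h6
    have h7 := mul_le_mul_of_nonneg_left hS hqk
    linarith
  · have hall : ∀ g i j, T1.vt g i ∈ A ↔ T1.vt g j ∈ A := by
      intro g i j
      by_cases h1 : ∃ v, oldV ({f} : Finset F1) T2 t0 v ∈ A'
      · have h2 : ∀ v, v ∈ A := by
          intro v
          by_contra h3
          exact hc ⟨h1, v, h3⟩
        exact iff_of_true (h2 _) (h2 _)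
      · have h2 : ∀ v, v ∉ A := fun v h3 => h1 ⟨v, h3⟩
        exact iff_of_false (h2 _) (h2 _)
    have hP : Pot T1 q s o lab A = 0 :=
      Finset.sum_eq_zero fun g _ => B5_lw_zero T1 _ s o _ A g (hall g)
    have hF : lw T1 q s o (lab f) A f = 0 := B5_lw_zero T1 _ s o _ A f (hall f)
    have hS : ∑ g, lw T2 q⁻¹ s o (hl g) B g ≤ 16 := by
      have h1 : ∑ g, lw T2 q⁻¹ s o (hl g) B g ≤ ∑ _g : F2, (1 : ℝ) :=
        Finset.sum_le_sum fun g _ => B5_lw_le T2 q hq s o hs ho _ B g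
      rw [Finset.sum_const, Finset.card_univ, nsmul_eq_mul, mul_one] at h1
      have h2 : (Fintype.card F2 : ℝ) ≤ 16 := by exact_mod_cast hh.few
      exact h1.trans h2
    have h7 := mul_le_mul_of_nonneg_left hS hqk
    have h8 : q ^ k ≤ q ^ K := pow_le_pow_right₀ hq hK
    rw [hP, hF] at key
    linarith

end LU56
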