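import Pool.Agent.LibLU56.Ins

/-! Row B6 (SHORT/MEDIUM). One insertion does not decrease the total size and decreases the measure.
PLAN. The sums over `IF` split (`Fintype.sum_sum_type`, `Fintype.sum_prod_type`; the subtype `{f' // f' ∈ {f}}` has one element, `{f' // f' ∉ {f}}` corresponds to `univ.erase f`, `{g // g ≠ t0}` to `univ.erase t0`: `Finset.sum_subtype`). `siz_step`: the copy contributes
`∑ g ≠ t0, ls r n ((hl g).map ..) = r^k * ∑ g, ls r⁻¹ n (hl g)` (`hh.root : hl t0 = none`, so the term of `t0` is `0`) (`r^(k-d) = r^k (r⁻¹)^d`, `d ≤ 61 ≤ k`) `≥ r^k * n τ = ls r n (lab f)`. `mea_step`: the copy contributes at most `15 * 16^(k-1) < 16^k` (`d ≥ 1`; at most `15` faces `≠ t0` by `few`). -/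

namespace LU56
open LS35

/-- termination measure -/
def mea {F : Type} [Fintype F] (lab : F → Lab) : ℕ := ∑ f, match lab f with
  | none => 0
  | some (_, k) => 16 ^ k

variable {V1 F1 V2 F2 : Type} [Fintype V1] [Fintype F1] [Fintype V2] [Fintype F2] (T2 : Tri V2 F2) (t0 : F2)

private def mw (l : Lab) : ℕ := match l with
  | none => 0
  | some (_, k) => 16 ^ k

private theorem mea_eq {F : Type} [Fintype F] (lab : F → Lab) : mea lab = ∑ f, mw (lab f) := rfl

private theorem sum_IF {F1 F2 M : Type} [Fintype F1] [Fintype F2] [AddCommMonoid M] (t0 : F2) (f : F1) (G : F1 → M) (H : F2 → M)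
    (φ : IF ({f} : Finset F1) t0 → M) (h1 : ∀ g, φ (Sum.inl g) = G g.1) (h2 : ∀ p, φ (Sum.inr p) = H p.2.1) :
    ∑ a, φ a + G f + H t0 = ∑ g, G g + ∑ g, H g := by
  classical
  have e1 : ∑ a, φ a = ∑ g : {g : F1 // g ∉ ({f} : Finset F1)}, G g.1 +
      ∑ p : {g : F1 // g ∈ ({f} : Finset F1)} × {g : F2 // g ≠ t0}, H p.2.1 := by
    rw [← Finset.sum_congr rfl (fun g _ => h1 g), ← Finset.sum_congr rfl (fun p _ => h2 p)]
    rw [Subsingleton.elim (instFintypeIF ({f} : Finset F1) t0) (instFintypeSum _ _)]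
    exact Fintype.sum_sum_type φ
  have e2 : ∑ p : {g : F1 // g ∈ ({f} : Finset F1)} × {g : F2 // g ≠ t0}, H p.2.1 = ∑ g : {g : F2 // g ≠ t0}, H g.1 := by
    rw [Fintype.sum_prod_type]
    have : (Finset.univ : Finset {g : F1 // g ∈ ({f} : Finset F1)}) = {⟨f, Finset.mem_singleton_self f⟩} := by
      ext x
      obtain ⟨x, hx⟩ := x
      have : x = f := Finset.mem_singleton.1 hx
      subst this
      simp only [Finset.mem_univ, Finset.mem_singleton]
    rw [this, Finset.sum_singleton]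
  have e3 : ∑ g : {g : F2 // g ≠ t0}, H g.1 + H t0 = ∑ g, H g := by
    rw [← Finset.sum_erase_add _ _ (Finset.mem_univ t0)]
    congr 1
    symm
    apply Finset.sum_subtype
    intro x
    simp
  have e4 : ∑ g : {g : F1 // g ∉ ({f} : Finset F1)}, G g.1 + G f = ∑ g, G g := by
    rw [← Finset.sum_erase_add _ _ (Finset.mem_univ f)]
    congr 1
    symm
    apply Finset.sum_subtype
    intro x
    simp
  rw [e1, e2, ← e3, ← e4]
  abel


theorem siz_step (q r : ℝ) (hr : 0 < r) (s o n : Fin 2 → ℝ) (lab : F1 → Lab) (hl : F2 → Lab) (f : F1) (τ : Fin 2) (k : ℕ)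
    (hf : lab f = some (τ, k)) (hk : 61 ≤ k) (hh : Host q r s o n τ T2 t0 hl) :
    Siz r n lab ≤ Siz r n (iLab ({f} : Finset F1) t0 lab hl k) := by
  have key := sum_IF t0 f (fun g => ls r n (lab g)) (fun g => ls r n ((hl g).map fun x => (x.1, k - x.2)))
    (fun a => ls r n (iLab ({f} : Finset F1) t0 lab hl k a)) (fun g => rfl) (fun p => rfl)
  have h0 : ls r n ((hl t0).map fun x => (x.1, k - x.2)) = 0 := by
    rw [hh.root]; rfl
  have h1 : ls r n (lab f) = n τ * r ^ k := by rw [hf]; rfl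
  have h2 : ∀ g, ls r n ((hl g).map fun x => (x.1, k - x.2)) = r ^ k * ls r⁻¹ n (hl g) := by
    intro g
    cases hg : hl g with
    | none => simp [ls]
    | some x =>
      obtain ⟨σ, d⟩ := x
      have hd := (hh.delay g σ d hg).2
      show n σ * r ^ (k - d) = r ^ k * (n σ * (r⁻¹) ^ d)
      rw [pow_sub₀ r hr.ne' (le_trans hd hk), inv_pow]
      ring
  have h3 : n τ * r ^ k ≤ ∑ g, ls r n ((hl g).map fun x => (x.1, k - x.2)) := by
    rw [Finset.sum_congr rfl (fun g _ => h2 g), ← Finset.mul_sum, mul_comm]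
    exact mul_le_mul_of_nonneg_left hh.sz (pow_pos hr k).le
  unfold Siz
  simp only [h0, h1, add_zero] at key
  linarith

theorem mea_step (q r : ℝ) (s o n : Fin 2 → ℝ) (lab : F1 → Lab) (hl : F2 → Lab) (f : F1) (τ : Fin 2) (k : ℕ)
    (hf : lab f = some (τ, k)) (hk : 61 ≤ k) (hh : Host q r s o n τ T2 t0 hl) :
    mea (iLab ({f} : Finset F1) t0 lab hl k) < mea lab := by
  have key := sum_IF t0 f (fun g => mw (lab g)) (fun g => mw ((hl g).map fun x => (x.1, k - x.2)))
    (fun a => mw (iLab ({f} : Finset F1) t0 lab hl k a)) (fun g => rfl) (fun p => rfl)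
  have h0 : mw ((hl t0).map fun x => (x.1, k - x.2)) = 0 := by
    rw [hh.root]; rfl
  have h1 : mw (lab f) = 16 ^ k := by rw [hf]; rfl
  have h2 : ∀ g, mw ((hl g).map fun x => (x.1, k - x.2)) ≤ 16 ^ (k - 1) := by
    intro g
    cases hg : hl g with
    | none => simp [mw]
    | some x =>
      obtain ⟨σ, d⟩ := x
      have hd := (hh.delay g σ d hg).1
      show 16 ^ (k - d) ≤ 16 ^ (k - 1)
      exact Nat.pow_le_pow_right (by norm_num) (by omega)
  have h3 : ∑ g, mw ((hl g).map fun x => (x.1, k - x.2)) ≤ 15 * 16 ^ (k - 1) := by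
    classical
    rw [← Finset.sum_erase_add _ _ (Finset.mem_univ t0), h0, add_zero]
    calc ∑ g ∈ Finset.univ.erase t0, mw ((hl g).map fun x => (x.1, k - x.2)) ≤
        ∑ g ∈ Finset.univ.erase t0, 16 ^ (k - 1) := Finset.sum_le_sum fun g _ => h2 g
      _ = (Fintype.card F2 - 1) * 16 ^ (k - 1) := by
        rw [Finset.sum_const, Finset.card_erase_of_mem (Finset.mem_univ t0), Finset.card_univ, smul_eq_mul]
      _ ≤ 15 * 16 ^ (k - 1) := Nat.mul_le_mul_right _ (by have := hh.few; omega)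
  have h4 : 16 ^ k = 16 * 16 ^ (k - 1) := by
    rw [← pow_succ']
    congr 1
    omega
  have h5 : 0 < 16 ^ (k - 1) := by positivity
  rw [mea_eq, mea_eq]
  simp only [h0, h1, add_zero] at key
  omega

/-- levels do not increase -/
theorem lev_step (lab : F1 → Lab) (hl : F2 → Lab) (f : F1) (k K : ℕ) (hk : k ≤ K) (h : ∀ g σ j, lab g = some (σ, j) → j ≤ K)
    (a : IF (F1 := F1) {f} t0) (σ : Fin 2) (j : ℕ) (ha : iLab {f} t0 lab hl k a = some (σ, j)) : j ≤ K := by
  rcases a with g | ⟨f', g⟩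
  · exact h g.1 σ j ha
  · change (hl g.1).map (fun x => (x.1, k - x.2)) = some (σ, j) at ha
    cases hg : hl g.1 with
    | none => rw [hg] at ha; cases ha
    | some x =>
      rw [hg] at ha
      simp only [Option.map_some, Option.some.injEq, Prod.mk.injEq] at ha
      omega

end LU56
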