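import Pool.Agent.LibLU56.B5
import Pool.Agent.LibLU56.B6

/-! Chair: induction to a labelled triangulation with all levels below `61`. -/

namespace LU56
open LS35

theorem to_terminal (q r : ℝ) (hq : 1 ≤ q) (hr : 0 < r) (s o n : Fin 2 → ℝ) (hs : ∀ τ, 0 ≤ s τ ∧ s τ ≤ 1)
    (ho : ∀ τ, 0 ≤ o τ ∧ o τ ≤ 1)
    (hosts : ∀ τ, ∃ (V2 F2 : Type) (_ : Fintype V2) (_ : Fintype F2) (T2 : Tri V2 F2) (t0 : F2) (hl : F2 → Lab),
      Host q r s o n τ T2 t0 hl)
    (K : ℕ) (c S : ℝ) (hc : 16 * q ^ K ≤ c) (m : ℕ) :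
    ∀ (V1 F1 : Type) (_ : Fintype V1) (_ : Fintype F1) (T1 : Tri V1 F1) (lab : F1 → Lab), mea lab ≤ m →
      (∀ g σ j, lab g = some (σ, j) → j ≤ K) → (∀ A, Split T1 A → Pot T1 q s o lab A ≤ c) → S ≤ Siz r n lab →
      ∃ (V F : Type) (_ : Fintype V) (_ : Fintype F) (T : Tri V F) (lab' : F → Lab),
        (∀ g σ j, lab' g = some (σ, j) → j < 61) ∧ (∀ A, Split T A → Pot T q s o lab' A ≤ c) ∧ S ≤ Siz r n lab' := by
  induction m with
  | zero =>
    intro V1 F1 i1 i2 T1 lab hm hK hP hS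
    by_cases hex : ∃ g σ j, lab g = some (σ, j) ∧ 61 ≤ j
    · exfalso
      obtain ⟨g, σ, j, hg, _⟩ := hex
      have : 16 ^ j ≤ mea lab := by
        unfold mea
        have := Finset.single_le_sum (f := fun f => match lab f with
          | none => 0
          | some (_, k) => 16 ^ k) (fun _ _ => Nat.zero_le _) (Finset.mem_univ g)
        rw [hg] at this
        exact this
      have h2 : 0 < 16 ^ j := by positivity
      omega
    · push Not at hex
      exact ⟨V1, F1, i1, i2, T1, lab, fun g σ j h => hex g σ j h, hP, hS⟩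
  | succ m ih =>
    intro V1 F1 i1 i2 T1 lab hm hK hP hS
    by_cases hex : ∃ g σ j, lab g = some (σ, j) ∧ 61 ≤ j
    · obtain ⟨f, τ, k, hf, hk⟩ := hex
      obtain ⟨V2, F2, j1, j2, T2, t0, hl, hh⟩ := hosts τ
      have hkK := hK f τ k hf
      refine ih (IV V1 ({f} : Finset F1) T2 t0) (IF ({f} : Finset F1) t0) _ _ (ins T1 {f} T2 t0)
        (iLab {f} t0 lab hl k) ?_ ?_ ?_ ?_
      · have := mea_step T2 t0 q r s o n lab hl f τ k hf hk hh
        omega
      · exact fun a σ j ha => lev_step t0 lab hl f k K hkK hK a σ j ha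
      · exact fun A hA => pot_step T1 T2 t0 q r hq s o n hs ho lab hl f τ k K hf hk hkK hh c hc hP A hA
      · exact hS.trans (siz_step T2 t0 q r hr s o n lab hl f τ k hf hk hh)
    · push Not at hex
      exact ⟨V1, F1, i1, i2, T1, lab, fun g σ j h => hex g σ j h, hP, hS⟩

end LU56
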