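import Pool.Agent.LibLU56.CDefs

/-! Row C1 (MEDIUM). The two hosts are triangulations.
PLAN. `inj`, `uniq`, `opp`, `four`, `euler`: `decide` (with `set_option maxRecDepth`) after unfolding to quantifiers over `Fin`. `link`: define the rotation `nx : Fin 16 × Fin 3 → Fin 16 × Fin 3` by a search (`Finset`/`List.find?`) or by an explicit table, prove by `decide` that every step `x → nx x` satisfies the relation and that
`∀ f g i j, vtA f i = vtA g j → ∃ n : Fin 10, nx^[n] (f, i) = (g, j)`; then `Relation.ReflTransGen` by induction on `n`. `conn`: it is enough to connect every vertex with vertex `0` in both directions; e.g. define by `decide` a list of neighbours: `∀ v, ∃ n : Fin 5, par^[n] v = 0` where `par` is an explicit table with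
`∀ v, v ≠ 0 → ∃ f i, vtA f i = v ∧ vtA f (i+1) = par v`, and the same for the reversed direction (`opp`: the relation is symmetric). -/

namespace LU56
open LS35

/-- a triangulation from tables: the rotation `nx` and the tree `par` with root `o` -/
private theorem mkTri {n k : ℕ} (vt : Fin k → Fin 3 → Fin n) (nx : Fin k → Fin 3 → Fin k × Fin 3)
    (par : Fin n → Fin n) (o : Fin n)
    (h1 : ∀ f i j, vt f i = vt f j → i = j)
    (h2 : ∀ f g i j, vt f i = vt g j → vt f (i + 1) = vt g (j + 1) → f = g)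
    (h3 : ∀ f i, ∃ g j, vt g j = vt f (i + 1) ∧ vt g (j + 1) = vt f i)
    (h4 : ∀ f i, vt (nx f i).1 (nx f i).2 = vt f i ∧ vt (nx f i).1 ((nx f i).2 + 1) = vt f (i + 2))
    (h5 : ∀ f i g j, vt f i = vt g j → ∃ m : Fin 7, (fun x : Fin k × Fin 3 => nx x.1 x.2)^[m] (f, i) = (g, j))
    (h6 : ∀ v, par v = v ∨ ∃ f i, vt f i = v ∧ vt f (i + 1) = par v)
    (h7 : ∀ v, ∃ m : Fin 5, par^[m] v = o)
    (four : 4 ≤ n) (euler : k + 4 = 2 * n) : ∃ T : Tri (Fin n) (Fin k), T.vt = vt := by
  have link : ∀ f g i j, vt f i = vt g j → Relation.ReflTransGen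
      (fun a b : Fin k × Fin 3 => vt b.1 b.2 = vt a.1 a.2 ∧ vt b.1 (b.2 + 1) = vt a.1 (a.2 + 2))
      (f, i) (g, j) := by
    intro f g i j h
    obtain ⟨m, hm⟩ := h5 f i g j h
    rw [← hm]
    generalize (m : ℕ) = m'
    induction m' with
    | zero => exact Relation.ReflTransGen.refl
    | succ m' ih =>
      rw [Function.iterate_succ_apply']
      exact ih.tail (h4 _ _)
  have hsym : ∀ a b : Fin n, (∃ f i, vt f i = a ∧ vt f (i + 1) = b) →
      ∃ f i, vt f i = b ∧ vt f (i + 1) = a := by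
    rintro a b ⟨f, i, rfl, rfl⟩
    exact h3 f i
  have hup : ∀ (m : ℕ) (v : Fin n), Relation.ReflTransGen
      (fun a b => ∃ f i, vt f i = a ∧ vt f (i + 1) = b) v (par^[m] v) := by
    intro m v
    induction m with
    | zero => exact Relation.ReflTransGen.refl
    | succ m ih =>
      rw [Function.iterate_succ_apply']
      rcases h6 (par^[m] v) with h | h
      · rw [h]; exact ih
      · exact ih.tail h
  have hdn : ∀ (m : ℕ) (v : Fin n), Relation.ReflTransGen
      (fun a b => ∃ f i, vt f i = a ∧ vt f (i + 1) = b) (par^[m] v) v := by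
    intro m v
    induction m with
    | zero => exact Relation.ReflTransGen.refl
    | succ m ih =>
      rw [Function.iterate_succ_apply']
      rcases h6 (par^[m] v) with h | h
      · rw [h]; exact ih
      · exact Relation.ReflTransGen.head (hsym _ _ h) ih
  have conn : ∀ u v, Relation.ReflTransGen
      (fun a b => ∃ f i, vt f i = a ∧ vt f (i + 1) = b) u v := by
    intro u v
    obtain ⟨m, hm⟩ := h7 u
    obtain ⟨m', hm'⟩ := h7 v
    have a1 := hup m u
    have a2 := hdn m' v
    rw [hm] at a1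
    rw [hm'] at a2
    exact a1.trans a2
  exact ⟨{ vt := vt
           inj := fun f i j h => h1 f i j h
           uniq := h2
           opp := h3
           link := link
           conn := conn
           four := by rw [Fintype.card_fin]; exact four
           euler := by rw [Fintype.card_fin, Fintype.card_fin]; exact euler }, rfl⟩

private def nxA : Fin 16 → Fin 3 → Fin 16 × Fin 3 :=
  ![![(5, 2), (12, 0), (1, 1)], ![(4, 0), (2, 2), (0, 1)], ![(1, 0), (3, 2), (6, 0)],
    ![(2, 0), (4, 2), (8, 0)], ![(3, 0), (1, 2), (10, 2)], ![(0, 2), (6, 2), (13, 0)],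
    ![(5, 0), (2, 1), (7, 1)], ![(8, 2), (14, 0), (6, 1)], ![(7, 2), (3, 1), (9, 2)],
    ![(8, 1), (10, 1), (15, 1)], ![(4, 1), (11, 2), (9, 0)], ![(10, 0), (12, 2), (15, 2)],
    ![(11, 0), (0, 0), (13, 2)], ![(12, 1), (5, 1), (14, 2)], ![(13, 1), (7, 0), (15, 0)],
    ![(11, 1), (14, 1), (9, 1)]]

private def nxB : Fin 10 → Fin 3 → Fin 10 × Fin 3 :=
  ![![(2, 0), (6, 2), (5, 1)], ![(5, 0), (4, 2), (2, 1)], ![(3, 0), (0, 2), (1, 1)],
    ![(7, 0), (2, 2), (4, 1)], ![(1, 0), (8, 2), (3, 1)], ![(9, 0), (1, 2), (0, 1)],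
    ![(0, 0), (7, 2), (9, 1)], ![(6, 0), (3, 2), (8, 1)], ![(4, 0), (9, 2), (7, 1)],
    ![(8, 0), (5, 2), (6, 1)]]

private def vt4 : Fin 4 → Fin 3 → Fin 4 := ![![0, 1, 2], ![0, 2, 3], ![0, 3, 1], ![1, 3, 2]]

private def nx4 : Fin 4 → Fin 3 → Fin 4 × Fin 3 :=
  ![![(1, 0), (2, 2), (3, 2)], ![(2, 0), (0, 2), (3, 1)], ![(0, 0), (1, 2), (3, 0)],
    ![(0, 1), (2, 1), (1, 1)]]

theorem exA : ∃ T : Tri (Fin 10) (Fin 16), T.vt = vtA :=
  mkTri vtA nxA ![0, 0, 0, 0, 0, 4, 1, 2, 4, 4] 0
    (by decide +kernel) (by decide +kernel) (by decide +kernel) (by decide +kernel)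
    (by decide +kernel) (by decide +kernel) (by decide +kernel) (by norm_num) (by norm_num)

/-- the tetrahedron, faces `![0,1,2], ![0,2,3], ![0,3,1], ![1,3,2]` -/
theorem ex4 : Nonempty (Tri (Fin 4) (Fin 4)) := by
  obtain ⟨T, -⟩ := mkTri vt4 nx4 ![0, 0, 0, 0] 0
    (by decide +kernel) (by decide +kernel) (by decide +kernel) (by decide +kernel)
    (by decide +kernel) (by decide +kernel) (by decide +kernel) (by norm_num) (by norm_num)
  exact ⟨T⟩

theorem exB : ∃ T : Tri (Fin 7) (Fin 10), T.vt = vtB :=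
  mkTri vtB nxB ![0, 0, 0, 0, 0, 4, 4] 0
    (by decide +kernel) (by decide +kernel) (by decide +kernel) (by decide +kernel)
    (by decide +kernel) (by decide +kernel) (by decide +kernel) (by norm_num) (by norm_num)

end LU56
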