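import Pool.Agent.LibLU56.CDefs

/-! Row C2 (MEDIUM). Soundness of the check.
PLAN. `disc_sound`: let `r = clos E m`. From `disc E m = true`: (i) `r &&& m = r`: every bit of `r` is a bit of `m` (`Nat.testBit_and`); (ii) `r ≠ 0`, `r ≠ m`: there is `u` with `r.testBit u` (`Nat.zero_of_testBit_eq_false`/`Nat.eq_of_testBit_eq`), and some `v` with `m.testBit v`, `¬ r.testBit v`; (iii) `r` is closed under the edges
inside `m`. By induction over a walk inside `m` starting at `u` all vertices reached have `r.testBit`; so `v` is not reached. All bits of `m` are `< n` (`hm`, `Nat.testBit_lt_two_pow`), so `u, v : Fin n`; `T.Adj a b` means `vt f i = a`, `vt f (i+1) = b`, and `(a, b) ∈ edg vt` (`edg`, `List.mem_flatMap`, cases `i = 0, 1, 2`).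
`mask`: for every set `B : Set (Fin n)` the number `m = ∑ v, if v ∈ B then 2^v else 0` has `m < 2^n` and `m.testBit v = decide (v ∈ B)`; one can also use `Nat.ofBits`/`Nat.testBit_ofBits`. `mask_compl`: `(2^n - 1 - m).testBit v = !m.testBit v` for `v < n` (`Nat.testBit_two_pow_sub_succ`). -/

namespace LU56
open LS35

theorem disc_sound {n k : ℕ} (T : Tri (Fin n) (Fin k)) (vt : Fin k → Fin 3 → Fin n) (hT : T.vt = vt) (m : ℕ) (hm : m < 2 ^ n)
    (h : disc (edg vt) m = true) (B : Set (Fin n)) (hB : ∀ v : Fin n, v ∈ B ↔ m.testBit v = true)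
    (hcon : ∀ u ∈ B, ∀ v ∈ B, Relation.ReflTransGen (fun a b => T.Adj a b ∧ a ∈ B ∧ b ∈ B) u v) : False := by
  classical
  subst hT
  unfold disc at h
  simp only [Bool.and_eq_true, beq_iff_eq, Bool.not_eq_true', beq_eq_false_iff_ne, List.all_eq_true] at h
  obtain ⟨⟨⟨h1, h2⟩, h3⟩, h4⟩ := h
  set r := clos (edg T.vt) m with hr
  have hsub : ∀ i, r.testBit i = true → m.testBit i = true := by
    intro i hi
    have h5 := congrArg (fun x => Nat.testBit x i) h1
    simp only [Nat.testBit_and, hi, Bool.true_and] at h5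
    exact h5
  obtain ⟨u, hu⟩ : ∃ u, r.testBit u = true := by
    by_contra hc
    push Not at hc
    exact h2 (Nat.zero_of_testBit_eq_false (fun i => by simpa using hc i))
  obtain ⟨v, hv1, hv2⟩ : ∃ v, m.testBit v = true ∧ r.testBit v = false := by
    by_contra hc
    push Not at hc
    apply h3
    apply Nat.eq_of_testBit_eq
    intro i
    by_cases hri : r.testBit i = true
    · rw [hri, hsub i hri]
    · have hr' : r.testBit i = false := by simpa using hri
      by_cases hmi : m.testBit i = true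
      · exact absurd hr' (hc i hmi)
      · have hm' : m.testBit i = false := by simpa using hmi
        rw [hr', hm']
  have hlt : ∀ i, m.testBit i = true → i < n := by
    intro i hi
    by_contra hc
    have h6 : m < 2 ^ i := lt_of_lt_of_le hm (Nat.pow_le_pow_right (by norm_num) (not_lt.1 hc))
    rw [Nat.testBit_lt_two_pow h6] at hi
    exact absurd hi (by simp)
  have hw := hcon ⟨u, hlt u (hsub u hu)⟩ ((hB _).2 (hsub u hu)) ⟨v, hlt v hv1⟩ ((hB _).2 hv1)
  have key : ∀ x : Fin n, Relation.ReflTransGen (fun a b => T.Adj a b ∧ a ∈ B ∧ b ∈ B)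
      (⟨u, hlt u (hsub u hu)⟩ : Fin n) x → r.testBit x = true := by
    intro x hx
    induction hx with
    | refl => exact hu
    | @tail b c _ hab ih =>
      obtain ⟨⟨f, i, hb, hc⟩, hbB, hcB⟩ := hab
      have hmem : ((b : ℕ), (c : ℕ)) ∈ edg T.vt := by
        refine List.mem_flatMap.2 ⟨f, List.mem_finRange f, ?_⟩
        rw [← hb, ← hc]
        fin_cases i <;> simp
      have h7 := h4 _ hmem
      have h8 := (hB c).1 hcB
      simpa [ih, h8] using h7
  have h9 := key _ hw
  simp only at h9
  rw [hv2] at h9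
  exact absurd h9 (by simp)

theorem mask {n : ℕ} (B : Set (Fin n)) : ∃ m < 2 ^ n, ∀ v : Fin n, v ∈ B ↔ m.testBit v = true := by
  classical
  refine ⟨Nat.ofBits (fun v : Fin n => decide (v ∈ B)), Nat.ofBits_lt_two_pow _, ?_⟩
  intro v
  rw [Nat.testBit_ofBits_lt _ _ v.2]
  simp

theorem mask_compl {n : ℕ} (m : ℕ) (hm : m < 2 ^ n) (v : Fin n) :
    (2 ^ n - 1 - m).testBit v = true ↔ ¬ m.testBit v = true := by
  have h1 : 2 ^ n - 1 - m = 2 ^ n - (m + 1) := by omega
  rw [h1, Nat.testBit_two_pow_sub_succ hm]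
  simp

end LU56
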