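import Pool.Agent.LibLU56.C2

/-! Row C3 (MEDIUM). From the check to the inequality for the weights (general host with root `0`).
PLAN. Given `B` with `Split T B` and `Iso T B t i`. `mask` gives `m`. `chk ... m = true` (`hchk`); the two first alternatives are impossible (`disc_sound` for `B` with `hs.con`, and for `Bᶜ` with mask `2^n-1-m`, `mask_compl`, `hs.conc`; note `2^n-1-m < 2^n`). So the last: `T.vt t 0 = a` etc. (`ha hb hc`).
If `i = 0`: `testBit b = testBit c`, `testBit a ≠ testBit b`, so `tot ≤ bs`. If `i = 1` or `2`: `testBit b ≠ testBit c`, so `tot ≤ bo`. `tot = ∑ f, cost ..` (`List.sum_map_finRange`-type lemma, `List.sum_ofFn`/`Fin.sum_univ_def`), and for every `g` (label `none`: left side `0`)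
`10^9 * lw T q⁻¹ s o (hl g) B g ≤ cost m (vt g 0) (vt g 1) (vt g 2) (cs g) (co g)` by `hcost` and the cases of `wgt`: `Iso 0 ↔ testBit b = testBit c ∧ testBit a ≠ testBit b`, `Iso 1 ∨ Iso 2 ↔ testBit b ≠ testBit c` (with `i + 1`, `i + 2` in `Fin 3`: `decide`/`fin_cases`). Sum up. -/

namespace LU56
open LS35

private theorem C3_bit {n : ℕ} {B : Set (Fin n)} {m : ℕ} (hB : ∀ v : Fin n, v ∈ B ↔ m.testBit v = true)
    (u v : Fin n) : (m.testBit u = m.testBit v) ↔ (u ∈ B ↔ v ∈ B) := by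
  rw [hB u, hB v]
  exact Bool.eq_iff_iff

private theorem C3_cost {n k : ℕ} (T : Tri (Fin n) (Fin k)) (B : Set (Fin n)) (m : ℕ)
    (hB : ∀ v : Fin n, v ∈ B ↔ m.testBit v = true) (g : Fin k) (cs co : ℕ) (w s o : ℝ)
    (h1 : 10 ^ 9 * (w * s) ≤ cs) (h2 : 10 ^ 9 * (w * o) ≤ co) :
    10 ^ 9 * (w * wgt T B g s o) ≤ (cost m (T.vt g 0) (T.vt g 1) (T.vt g 2) cs co : ℝ) := by
  have b12 := C3_bit hB (T.vt g 1) (T.vt g 2)
  have b01 := C3_bit hB (T.vt g 0) (T.vt g 1)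
  have e0 : Iso T B g 0 ↔ (T.vt g 1 ∈ B ↔ T.vt g 2 ∈ B) ∧ ¬ (T.vt g 0 ∈ B ↔ T.vt g 1 ∈ B) := Iff.rfl
  have e1 : Iso T B g 1 ↔ (T.vt g 2 ∈ B ↔ T.vt g 0 ∈ B) ∧ ¬ (T.vt g 1 ∈ B ↔ T.vt g 2 ∈ B) := Iff.rfl
  have e2 : Iso T B g 2 ↔ (T.vt g 0 ∈ B ↔ T.vt g 1 ∈ B) ∧ ¬ (T.vt g 2 ∈ B ↔ T.vt g 0 ∈ B) := Iff.rfl
  unfold wgt cost
  by_cases c12 : T.vt g 1 ∈ B ↔ T.vt g 2 ∈ B
  · rw [if_pos (b12.2 c12)]
    by_cases c01 : T.vt g 0 ∈ B ↔ T.vt g 1 ∈ B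
    · rw [if_pos (b01.2 c01), if_neg (fun h => (e0.1 h).2 c01), if_neg]
      · simp
      · rintro (h | h)
        · exact (e1.1 h).2 c12
        · have := (e2.1 h).2
          tauto
    · rw [if_neg (fun h => c01 (b01.1 h)), if_pos (e0.2 ⟨c12, c01⟩)]
      exact h1
  · rw [if_neg (fun h => c12 (b12.1 h)), if_neg (fun h => c12 (e0.1 h).1), if_pos]
    · exact h2
    · rw [e1, e2]
      tauto

theorem wt_of_chk {n k : ℕ} (T : Tri (Fin n) (Fin k)) (vt : Fin k → Fin 3 → Fin n) (hT : T.vt = vt) (t : Fin k)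
    (a b c : ℕ) (ha : (vt t 0 : ℕ) = a) (hb : (vt t 1 : ℕ) = b) (hc : (vt t 2 : ℕ) = c) (cs co : Fin k → ℕ) (bs bo : ℕ)
    (hchk : ∀ m < 2 ^ n, chk vt a b c cs co bs bo m = true) (q : ℝ) (s o : Fin 2 → ℝ) (τ : Fin 2)
    (hl : Fin k → Lab) (hbs : (bs : ℝ) ≤ 10 ^ 9 * s τ) (hbo : (bo : ℝ) ≤ 10 ^ 9 * o τ)
    (hcost : ∀ g σ d, hl g = some (σ, d) → 10 ^ 9 * (q⁻¹ ^ d * s σ) ≤ cs g ∧ 10 ^ 9 * (q⁻¹ ^ d * o σ) ≤ co g)
    (B : Set (Fin n)) (hs : Split T B) (i : Fin 3) (hi : Iso T B t i) :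
    ∑ g, lw T q⁻¹ s o (hl g) B g ≤ if i = 0 then s τ else o τ := by
  obtain ⟨m, hm, hB⟩ := mask B
  have hck := hchk m hm
  unfold chk at hck
  rw [Bool.or_eq_true, Bool.or_eq_true] at hck
  rcases hck with (h1 | h1) | h1
  · exact (disc_sound T vt hT m hm h1 B hB hs.con).elim
  · refine (disc_sound T vt hT (2 ^ n - 1 - m) ?_ h1 Bᶜ ?_ ?_).elim
    · have : 0 < 2 ^ n := Nat.two_pow_pos n
      omega
    · intro v
      rw [mask_compl m hm v, ← hB v]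
      exact Iff.rfl
    · exact fun u hu v hv => hs.conc u hu v hv
  subst hT
  subst ha hb hc
  have b12 := C3_bit hB (T.vt t 1) (T.vt t 2)
  have b01 := C3_bit hB (T.vt t 0) (T.vt t 1)
  -- the cost of one face
  have hface : ∀ g, 10 ^ 9 * lw T q⁻¹ s o (hl g) B g ≤
      (cost m (T.vt g 0) (T.vt g 1) (T.vt g 2) (cs g) (co g) : ℝ) := by
    intro g
    rcases hlg : hl g with _ | ⟨σ, d⟩
    · change 10 ^ 9 * (0 : ℝ) ≤ _
      rw [mul_zero]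
      exact Nat.cast_nonneg _
    · obtain ⟨h2, h3⟩ := hcost g σ d hlg
      change 10 ^ 9 * (q⁻¹ ^ d * wgt T B g (s σ) (o σ)) ≤ _
      exact C3_cost T B m hB g (cs g) (co g) _ _ _ h2 h3
  have hsum : 10 ^ 9 * ∑ g, lw T q⁻¹ s o (hl g) B g ≤ (tot T.vt cs co m : ℝ) := by
    unfold tot
    rw [← Fin.sum_univ_def, Nat.cast_sum, Finset.mul_sum]
    exact Finset.sum_le_sum fun g _ => hface g
  have hp : (0 : ℝ) < 10 ^ 9 := by norm_num
  have key : ∀ (bd : ℕ) (x : ℝ), tot T.vt cs co m ≤ bd → (bd : ℝ) ≤ 10 ^ 9 * x →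
      ∑ g, lw T q⁻¹ s o (hl g) B g ≤ x := by
    intro bd x h2 h3
    have h4 : (tot T.vt cs co m : ℝ) ≤ bd := by exact_mod_cast h2
    have h5 : (10 : ℝ) ^ 9 * ∑ g, lw T q⁻¹ s o (hl g) B g ≤ 10 ^ 9 * x := hsum.trans (h4.trans h3)
    exact le_of_mul_le_mul_left h5 hp
  by_cases h12 : T.vt t 1 ∈ B ↔ T.vt t 2 ∈ B
  · -- the corner `0`
    have hi0 : i = 0 := by
      fin_cases i
      · rfl
      · exact absurd h12 hi.2
      · exfalso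
        have h2 : T.vt t 0 ∈ B ↔ T.vt t 1 ∈ B := hi.1
        have h3 : ¬ (T.vt t 2 ∈ B ↔ T.vt t 0 ∈ B) := hi.2
        tauto
    subst hi0
    have h01 : ¬ (T.vt t 0 ∈ B ↔ T.vt t 1 ∈ B) := hi.2
    rw [if_pos (b12.2 h12), Bool.or_eq_true, decide_eq_true_eq, beq_iff_eq] at h1
    rw [if_pos rfl]
    rcases h1 with h1 | h1
    · exact absurd (b01.1 h1) h01
    · exact key bs (s τ) h1 hbs
  · have hi0 : i ≠ 0 := by
      rintro rfl
      exact h12 hi.1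
    rw [if_neg (fun h => h12 (b12.1 h)), decide_eq_true_eq] at h1
    rw [if_neg hi0]
    exact key bo (o τ) h1 hbo

end LU56
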