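import Pool.Agent.LibLU56.CDefs

namespace LU56

set_option maxRecDepth 100000 in
theorem chkB_all : ∀ m < 128, chk vtB 2 5 1 csB coB 995718000 935802000 m = true := by
  decide +kernel

set_option maxRecDepth 100000 in
theorem chkA_all : ∀ m < 1024, chk vtA 5 4 1 csA coA 868302000 1000000000 m = true := by
  decide +kernel

end LU56
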