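import Pool.Agent.LibLU56.CDefs

/-! Row C5. Numerical inequalities for the two hosts. -/

namespace LU56

private theorem keyC5 (d : ℕ) (s c : ℝ) (h : 10 ^ 9 * s ≤ c * (1050469 / 1000000 : ℝ) ^ d) :
    10 ^ 9 * (Q⁻¹ ^ d * s) ≤ c := by
  have hQ : (0 : ℝ) < Q ^ d := by
    unfold Q
    positivity
  have h1 : 10 ^ 9 * (Q⁻¹ ^ d * s) = (10 ^ 9 * s) / Q ^ d := by
    rw [inv_pow]
    field_simp
  rw [h1, div_le_iff₀ hQ]
  exact h

private theorem A040s : (10 : ℝ) ^ 9 * (Q⁻¹ ^ 40 * (868302 / 1000000)) ≤ 121154954 :=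
  keyC5 _ _ _ (by norm_num)
private theorem A040o : (10 : ℝ) ^ 9 * (Q⁻¹ ^ 40 * 1) ≤ 139530894 :=
  keyC5 _ _ _ (by norm_num)
private theorem A143s : (10 : ℝ) ^ 9 * (Q⁻¹ ^ 43 * (995718 / 1000000)) ≤ 119855236 :=
  keyC5 _ _ _ (by norm_num)
private theorem A143o : (10 : ℝ) ^ 9 * (Q⁻¹ ^ 43 * (935802 / 1000000)) ≤ 112643108 :=
  keyC5 _ _ _ (by norm_num)
private theorem A145s : (10 : ℝ) ^ 9 * (Q⁻¹ ^ 45 * (995718 / 1000000)) ≤ 108615181 :=
  keyC5 _ _ _ (by norm_num)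
private theorem A145o : (10 : ℝ) ^ 9 * (Q⁻¹ ^ 45 * (935802 / 1000000)) ≤ 102079408 :=
  keyC5 _ _ _ (by norm_num)
private theorem A144s : (10 : ℝ) ^ 9 * (Q⁻¹ ^ 44 * (995718 / 1000000)) ≤ 114096881 :=
  keyC5 _ _ _ (by norm_num)
private theorem A144o : (10 : ℝ) ^ 9 * (Q⁻¹ ^ 44 * (935802 / 1000000)) ≤ 107231254 :=
  keyC5 _ _ _ (by norm_num)
private theorem A147s : (10 : ℝ) ^ 9 * (Q⁻¹ ^ 47 * (995718 / 1000000)) ≤ 98429222 :=
  keyC5 _ _ _ (by norm_num)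
private theorem A147o : (10 : ℝ) ^ 9 * (Q⁻¹ ^ 47 * (935802 / 1000000)) ≤ 92506375 :=
  keyC5 _ _ _ (by norm_num)
private theorem B048s : (10 : ℝ) ^ 9 * (Q⁻¹ ^ 48 * (868302 / 1000000)) ≤ 81710008 :=
  keyC5 _ _ _ (by norm_num)
private theorem B048o : (10 : ℝ) ^ 9 * (Q⁻¹ ^ 48 * 1) ≤ 94103213 :=
  keyC5 _ _ _ (by norm_num)
private theorem B020s : (10 : ℝ) ^ 9 * (Q⁻¹ ^ 20 * (868302 / 1000000)) ≤ 324344090 :=
  keyC5 _ _ _ (by norm_num)
private theorem B020o : (10 : ℝ) ^ 9 * (Q⁻¹ ^ 20 * 1) ≤ 373538343 :=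
  keyC5 _ _ _ (by norm_num)
private theorem B058s : (10 : ℝ) ^ 9 * (Q⁻¹ ^ 58 * (868302 / 1000000)) ≤ 49939346 :=
  keyC5 _ _ _ (by norm_num)
private theorem B058o : (10 : ℝ) ^ 9 * (Q⁻¹ ^ 58 * 1) ≤ 57513798 :=
  keyC5 _ _ _ (by norm_num)
private theorem B161s : (10 : ℝ) ^ 9 * (Q⁻¹ ^ 61 * (995718 / 1000000)) ≤ 49403610 :=
  keyC5 _ _ _ (by norm_num)
private theorem B161o : (10 : ℝ) ^ 9 * (Q⁻¹ ^ 61 * (935802 / 1000000)) ≤ 46430814 :=
  keyC5 _ _ _ (by norm_num)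

private theorem sw0 : sw 0 = 868302 / 1000000 := rfl
private theorem sw1 : sw 1 = 995718 / 1000000 := rfl
private theorem ow0 : ow 0 = 1 := rfl
private theorem ow1 : ow 1 = 935802 / 1000000 := rfl

set_option maxRecDepth 10000 in
theorem costA (g : Fin 16) (σ : Fin 2) (d : ℕ) (h : hlA g = some (σ, d)) :
    10 ^ 9 * (Q⁻¹ ^ d * sw σ) ≤ csA g ∧ 10 ^ 9 * (Q⁻¹ ^ d * ow σ) ≤ coA g := by
  fin_cases g <;> simp [hlA] at h <;> obtain ⟨rfl, rfl⟩ := h <;>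
    simp only [sw0, sw1, ow0, ow1] <;>
    first
      | exact ⟨by simpa [csA] using A040s, by simpa [coA] using A040o⟩
      | exact ⟨by simpa [csA] using A143s, by simpa [coA] using A143o⟩
      | exact ⟨by simpa [csA] using A144s, by simpa [coA] using A144o⟩
      | exact ⟨by simpa [csA] using A145s, by simpa [coA] using A145o⟩
      | exact ⟨by simpa [csA] using A147s, by simpa [coA] using A147o⟩

set_option maxRecDepth 10000 in
theorem costB (g : Fin 10) (σ : Fin 2) (d : ℕ) (h : hlB g = some (σ, d)) :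
    10 ^ 9 * (Q⁻¹ ^ d * sw σ) ≤ csB g ∧ 10 ^ 9 * (Q⁻¹ ^ d * ow σ) ≤ coB g := by
  fin_cases g <;> simp [hlB] at h <;> obtain ⟨rfl, rfl⟩ := h <;>
    simp only [sw0, sw1, ow0, ow1] <;>
    first
      | exact ⟨by simpa [csB] using B048s, by simpa [coB] using B048o⟩
      | exact ⟨by simpa [csB] using B020s, by simpa [coB] using B020o⟩
      | exact ⟨by simpa [csB] using B058s, by simpa [coB] using B058o⟩
      | exact ⟨by simpa [csB] using B161s, by simpa [coB] using B161o⟩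

private theorem nw0 : nw 0 = 99294 / 100000 := rfl
private theorem nw1 : nw 1 = 1 := rfl

theorem szA : nw 0 ≤ ∑ g, ls R⁻¹ nw (hlA g) := by
  simp only [Fin.sum_univ_succ, Finset.univ_eq_empty, Finset.sum_empty]
  simp only [hlA]
  simp [ls, nw0, nw1, R]
  norm_num

theorem szB : nw 1 ≤ ∑ g, ls R⁻¹ nw (hlB g) := by
  simp only [Fin.sum_univ_succ, Finset.univ_eq_empty, Finset.sum_empty]
  simp only [hlB]
  simp [ls, nw0, nw1, R]
  norm_num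

theorem delayA (g : Fin 16) (σ : Fin 2) (d : ℕ) (h : hlA g = some (σ, d)) : 1 ≤ d ∧ d ≤ 61 := by
  fin_cases g <;> simp [hlA] at h <;> omega

theorem delayB (g : Fin 10) (σ : Fin 2) (d : ℕ) (h : hlB g = some (σ, d)) : 1 ≤ d ∧ d ≤ 61 := by
  fin_cases g <;> simp [hlB] at h <;> omega

theorem QR : Q ^ 105 < R ^ 103 := by
  unfold Q R
  norm_num

end LU56
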