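import Pool.Agent.LibLU56.C1
import Pool.Agent.LibLU56.C3
import Pool.Agent.LibLU56.C4
import Pool.Agent.LibLU56.C5

/-! Chair: the hosts. -/

namespace LU56
open LS35

theorem hosts (τ : Fin 2) : ∃ (V2 F2 : Type) (_ : Fintype V2) (_ : Fintype F2) (T2 : Tri V2 F2) (t0 : F2) (hl : F2 → Lab),
    Host Q R sw ow nw τ T2 t0 hl := by
  match τ with
  | 0 =>
    obtain ⟨T, hT⟩ := exA
    refine ⟨Fin 10, Fin 16, inferInstance, inferInstance, T, 0, hlA, rfl, delayA, by simp, ?_, szA⟩
    intro B hs i hi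
    refine wt_of_chk T vtA hT 0 5 4 1 rfl rfl rfl csA coA 868302000 1000000000 (by
      intro m hm
      exact chkA_all m (by norm_num at hm; exact hm)) Q sw ow 0 hlA ?_ ?_ costA B hs i hi
    · norm_num [sw]
    · norm_num [ow]
  | 1 =>
    obtain ⟨T, hT⟩ := exB
    refine ⟨Fin 7, Fin 10, inferInstance, inferInstance, T, 0, hlB, rfl, delayB, by simp, ?_, szB⟩
    intro B hs i hi
    refine wt_of_chk T vtB hT 0 2 5 1 rfl rfl rfl csB coB 995718000 935802000 (by
      intro m hm
      exact chkB_all m (by norm_num at hm; exact hm)) Q sw ow 1 hlB ?_ ?_ costB B hs i hi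
    · norm_num [sw]
    · norm_num [ow]

end LU56
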