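import Pool.Agent.LibLU56.Defs

/-! The two hosts: data and the finite check. -/

namespace LU56
open LS35

/-- host of type 0: 10 vertices, 16 faces (root = face 0) -/
def vtA : Fin 16 → Fin 3 → Fin 10 :=
  ![![5, 4, 1], ![0, 1, 4], ![0, 2, 1], ![0, 3, 2], ![0, 4, 3], ![1, 6, 5], ![1, 2, 6], ![7, 6, 2], ![2, 3, 7], ![3, 8, 7],
    ![4, 8, 3], ![4, 9, 8], ![4, 5, 9], ![5, 6, 9], ![6, 7, 9], ![9, 7, 8]]

/-- types and delays in the host of type 0 -/
def hlA : Fin 16 → Lab :=
  ![none, some (0, 40), none, some (1, 43), none, none, some (1, 45), some (1, 43), none, some (1, 44), some (1, 47),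
    some (1, 47), none, some (1, 43), none, some (1, 44)]

/-- host of type 1: 7 vertices, 10 faces (root = face 0): the bipyramid over a pentagon -/
def vtB : Fin 10 → Fin 3 → Fin 7 :=
  ![![2, 5, 1], ![4, 0, 1], ![2, 1, 0], ![2, 0, 3], ![4, 3, 0], ![4, 1, 5], ![2, 6, 5], ![2, 3, 6], ![4, 6, 3], ![4, 5, 6]]

/-- types and delays in the host of type 1 -/
def hlB : Fin 10 → Lab :=
  ![none, some (0, 48), some (0, 48), some (0, 20), some (0, 58), some (1, 61), some (0, 48), some (0, 48), some (0, 48),
    some (0, 48)]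

/-- upper bounds for `10^9 q^(-d) s` -/
def csA : Fin 16 → ℕ := ![0, 121154954, 0, 119855236, 0, 0, 108615181, 119855236, 0, 114096881, 98429222, 98429222, 0, 119855236,
  0, 114096881]

/-- upper bounds for `10^9 q^(-d) o` -/
def coA : Fin 16 → ℕ := ![0, 139530894, 0, 112643108, 0, 0, 102079408, 112643108, 0, 107231254, 92506375, 92506375, 0, 112643108,
  0, 107231254]

def csB : Fin 10 → ℕ := ![0, 81710008, 81710008, 324344090, 49939346, 49403610, 81710008, 81710008, 81710008, 81710008]

def coB : Fin 10 → ℕ := ![0, 94103213, 94103213, 373538343, 57513798, 46430814, 94103213, 94103213, 94103213, 94103213]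

/-! ### the check -/

/-- cost of a face with corners `a b c` for the set with bit mask `m` -/
def cost (m : ℕ) (a b c cs co : ℕ) : ℕ :=
  if m.testBit b = m.testBit c then (if m.testBit a = m.testBit b then 0 else cs) else co

/-- one round of the computation of the component -/
def nbr (E : List (ℕ × ℕ)) (m r : ℕ) : ℕ :=
  E.foldl (fun r e => if r.testBit e.1 && m.testBit e.2 then r ||| (1 <<< e.2) else r) r

/-- the component of the highest element of `m` -/
def clos (E : List (ℕ × ℕ)) (m : ℕ) : ℕ := nbr E m (nbr E m (nbr E m (nbr E m (1 <<< m.log2))))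

/-- certificate that the set with bit mask `m` is not connected -/
def disc (E : List (ℕ × ℕ)) (m : ℕ) : Bool :=
  let r := clos E m
  (r &&& m == r) && !(r == 0) && !(r == m) && E.all (fun e => !(r.testBit e.1 && m.testBit e.2) || r.testBit e.2)

/-- directed edges -/
def edg {n k : ℕ} (vt : Fin k → Fin 3 → Fin n) : List (ℕ × ℕ) :=
  (List.finRange k).flatMap fun f => [((vt f 0 : ℕ), (vt f 1 : ℕ)), ((vt f 1 : ℕ), (vt f 2 : ℕ)), ((vt f 2 : ℕ), (vt f 0 : ℕ))]

/-- total cost of the faces other than face `0` -/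
def tot {n k : ℕ} (vt : Fin k → Fin 3 → Fin n) (cs co : Fin k → ℕ) (m : ℕ) : ℕ :=
  ((List.finRange k).map fun f => cost m (vt f 0) (vt f 1) (vt f 2) (cs f) (co f)).sum

/-- the check for one set: `cs`, `co` vanish at the root face; `bs`, `bo` are the bounds -/
def chk {n k : ℕ} (vt : Fin k → Fin 3 → Fin n) (a b c : ℕ) (cs co : Fin k → ℕ) (bs bo : ℕ) (m : ℕ) : Bool :=
  disc (edg vt) m || disc (edg vt) (2 ^ n - 1 - m) ||
    (if m.testBit b = m.testBit c then (m.testBit a == m.testBit b || decide (tot vt cs co m ≤ bs))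
      else decide (tot vt cs co m ≤ bo))

end LU56
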