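import Pool.Agent.LibLU56.C5

/-! Row D1. Choice of the level (typed by helper32). -/

namespace LU56

theorem choose_level : ∃ K : ℕ, ∀ b : ℕ, nw 0 * R ^ K ≤ b * R ^ 60 →
    0 < ⌊20 * Q ^ K⌋₊ ∧ ⌊20 * Q ^ K⌋₊ < b ∧ Real.logb b (⌊20 * Q ^ K⌋₊ : ℕ) < 103 / 105 := by
  have hR : (0 : ℝ) < R := by unfold R; norm_num
  have hQ : (0 : ℝ) < Q := by unfold Q; norm_num
  have hQ1 : (1 : ℝ) ≤ Q := by unfold Q; norm_num
  have hn : (0 : ℝ) < nw 0 := by
    show (0 : ℝ) < 99294 / 100000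
    norm_num
  have h1 : 1 < R ^ 103 / Q ^ 105 := (one_lt_div (pow_pos hQ _)).2 QR
  obtain ⟨K, hK⟩ := pow_unbounded_of_one_lt (20 ^ 105 * (R ^ 60) ^ 103 / (nw 0) ^ 103) h1
  refine ⟨K, fun b hb => ?_⟩
  set y : ℝ := 20 * Q ^ K with hy
  set z : ℝ := nw 0 * R ^ K / R ^ 60 with hz
  have hy20 : (20 : ℝ) ≤ y := by
    have := one_le_pow₀ hQ1 (n := K)
    rw [hy]
    linarith
  have hz0 : 0 < z := div_pos (mul_pos hn (pow_pos hR _)) (pow_pos hR _)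
  have hzb : z ≤ b := by
    rw [hz, div_le_iff₀ (pow_pos hR _)]
    exact hb
  have hyz : y ^ 105 < z ^ 103 := by
    rw [div_pow, div_lt_div_iff₀ (pow_pos hn _) (pow_pos (pow_pos hQ _) _)] at hK
    rw [hz, div_pow, lt_div_iff₀ (pow_pos (pow_pos hR _) _), hy, mul_pow, mul_pow]
    calc 20 ^ 105 * (Q ^ K) ^ 105 * (R ^ 60) ^ 103
        = 20 ^ 105 * (R ^ 60) ^ 103 * (Q ^ 105) ^ K := by
          rw [← pow_mul Q K 105, ← pow_mul Q 105 K, mul_comm K 105]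
          exact mul_right_comm _ _ _
      _ < (R ^ 103) ^ K * nw 0 ^ 103 := hK
      _ = nw 0 ^ 103 * (R ^ K) ^ 103 := by
          rw [← pow_mul R K 103, ← pow_mul R 103 K, mul_comm K 103]
          exact mul_comm _ _
  have hc20 : 20 ≤ ⌊y⌋₊ := Nat.le_floor (by exact_mod_cast hy20)
  set c : ℕ := ⌊y⌋₊ with hc
  have hcy : (c : ℝ) ≤ y := Nat.floor_le (by linarith)
  have hcR : (20 : ℝ) ≤ c := by exact_mod_cast hc20
  have hcb : (c : ℝ) ^ 105 < (b : ℝ) ^ 103 :=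
    calc (c : ℝ) ^ 105 ≤ y ^ 105 := pow_le_pow_left₀ (by linarith) hcy _
      _ < z ^ 103 := hyz
      _ ≤ (b : ℝ) ^ 103 := pow_le_pow_left₀ hz0.le hzb _
  have hlt : (c : ℝ) < b := by
    apply lt_of_pow_lt_pow_left₀ 103 (Nat.cast_nonneg b)
    exact lt_of_le_of_lt (pow_le_pow_right₀ (by linarith) (by norm_num)) hcb
  have hb1 : (1 : ℝ) < b := by linarith
  refine ⟨by omega, by exact_mod_cast hlt, ?_⟩
  have hlog : 0 < Real.log b := Real.log_pos hb1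
  have h2 : Real.log ((c : ℝ) ^ 105) < Real.log ((b : ℝ) ^ 103) :=
    Real.log_lt_log (pow_pos (by linarith) _) hcb
  rw [Real.log_pow, Real.log_pow] at h2
  rw [Real.logb, div_lt_div_iff₀ hlog (by norm_num)]
  push_cast at h2
  linarith

end LU56
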