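import Pool.Agent.LibLU56.Defs

/-! Row D2 (SHORT/MEDIUM). From total weights and sizes to numbers of faces.
PLAN. `M = univ.filter (lab f ≠ none)`. (1) For a split `A` every `f ∈ M` with `∃ i, Iso T A f i` has `lw T Q sw ow (lab f) A f ≥ 0.868302` (`Q^k ≥ 1`, `wgt` is `sw τ` or `ow τ`, each `≥ 868302/10^6`; `fin_cases τ`), all other terms are `≥ 0`; so `card * 0.868302 ≤ Pot ≤ 16 Q^K` and `card ≤ 20 Q^K`, `Nat.le_floor`.
(2) `Siz R nw lab ≤ M.card * R^60`: each labelled face has `nw τ * R^k ≤ 1 * R^60` (`k < 61`, `R ≥ 1`, `nw τ ≤ 1`), the others contribute `0` (`Finset.sum_filter`, `Finset.sum_le_card_nsmul`). -/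

namespace LU56
open LS35

variable {V F : Type} [Fintype V] [Fintype F] (T : Tri V F)

private theorem D2_w (τ : Fin 2) : (868302 / 1000000 : ℝ) ≤ sw τ ∧ (868302 / 1000000 : ℝ) ≤ ow τ := by
  fin_cases τ
  · simp [sw, ow]
    norm_num
  · simp [sw, ow]
    norm_num

private theorem D2_n (τ : Fin 2) : nw τ ≤ 1 := by
  fin_cases τ
  · simp [nw]
    norm_num
  · simp [nw]

private theorem D2_Q : (1 : ℝ) ≤ Q := by
  unfold Q
  norm_num

private theorem D2_R : (1 : ℝ) ≤ R := by
  unfold R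
  norm_num

private theorem D2_wgt (A : Set V) (f : F) (τ : Fin 2) : 0 ≤ wgt T A f (sw τ) (ow τ) := by
  have h := D2_w τ
  unfold wgt
  split_ifs
  · linarith [h.1]
  · linarith [h.2]
  · exact le_rfl

private theorem D2_wgt2 (A : Set V) (f : F) (τ : Fin 2) (hf : ∃ i, Iso T A f i) :
    (868302 / 1000000 : ℝ) ≤ wgt T A f (sw τ) (ow τ) := by
  have h := D2_w τ
  unfold wgt
  split_ifs with h0 h1
  · exact h.1
  · exact h.2
  · exfalso
    obtain ⟨i, hi⟩ := hf
    have h2 : i = 0 ∨ i = 1 ∨ i = 2 := by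
      clear hi h h0 h1
      revert i
      decide
    rcases h2 with rfl | rfl | rfl
    · exact h0 hi
    · exact h1 (Or.inl hi)
    · exact h1 (Or.inr hi)

private theorem D2_lw (A : Set V) (f : F) (l : Lab) : 0 ≤ lw T Q sw ow l A f := by
  match l with
  | none => exact le_rfl
  | some (τ, k) => exact mul_nonneg (pow_nonneg (zero_le_one.trans D2_Q) k) (D2_wgt T A f τ)

private theorem D2_lw2 (A : Set V) (f : F) (l : Lab) (hl : l ≠ none) (hf : ∃ i, Iso T A f i) :
    (868302 / 1000000 : ℝ) ≤ lw T Q sw ow l A f := by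
  match l with
  | none => exact absurd rfl hl
  | some (τ, k) =>
    have h1 := D2_wgt2 T A f τ hf
    have h2 : (1 : ℝ) ≤ Q ^ k := one_le_pow₀ D2_Q
    change (868302 / 1000000 : ℝ) ≤ Q ^ k * wgt T A f (sw τ) (ow τ)
    nlinarith

open Classical in
theorem count_two (lab : F → Lab) (K : ℕ) (A : Set V) (h : Pot T Q sw ow lab A ≤ 16 * Q ^ K) :
    ((Finset.univ.filter fun f => lab f ≠ none).filter fun f => ∃ i, Iso T A f i).card ≤ ⌊20 * Q ^ K⌋₊ := by
  have h1 : (((Finset.univ.filter fun f => lab f ≠ none).filter fun f => ∃ i, Iso T A f i).card : ℝ) *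
      (868302 / 1000000) ≤ Pot T Q sw ow lab A := by
    rw [← nsmul_eq_mul]
    refine (Finset.card_nsmul_le_sum _ (fun f => lw T Q sw ow (lab f) A f) _ fun f hf => ?_).trans ?_
    · rw [Finset.mem_filter, Finset.mem_filter] at hf
      exact D2_lw2 T A f (lab f) hf.1.2 hf.2
    · exact Finset.sum_le_sum_of_subset_of_nonneg (Finset.subset_univ _)
        (fun f _ _ => D2_lw T A f (lab f))
  have h2 : (0 : ℝ) < Q ^ K := pow_pos (zero_lt_one.trans_le D2_Q) K
  refine Nat.le_floor ?_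
  have h3 := h1.trans h
  linarith

open Classical in
theorem count_all (lab : F → Lab) (hl : ∀ g σ j, lab g = some (σ, j) → j < 61) :
    Siz R nw lab ≤ (Finset.univ.filter fun f => lab f ≠ none).card * R ^ 60 := by
  have h1 : ∀ f ∈ (Finset.univ : Finset F), ls R nw (lab f) ≤ if lab f ≠ none then R ^ 60 else 0 := by
    intro f _
    rcases hf : lab f with _ | ⟨τ, k⟩
    · simp [ls]
    · rw [if_pos (by simp)]
      change nw τ * R ^ k ≤ R ^ 60
      have h2 := D2_n τ
      have h3 : R ^ k ≤ R ^ 60 := pow_le_pow_right₀ D2_R (by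
        have := hl f τ k hf
        omega)
      have h4 : (0 : ℝ) < R ^ k := pow_pos (zero_lt_one.trans_le D2_R) k
      nlinarith
  unfold Siz
  refine (Finset.sum_le_sum h1).trans ?_
  rw [← Finset.sum_filter, Finset.sum_const, nsmul_eq_mul]

end LU56
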