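import Pool.Agent.LibLU56.A5
import Pool.Agent.LibLU56.B8
import Pool.Agent.LibLU56.C6
import Pool.Agent.LibLU56.D1
import Pool.Agent.LibLU56.D2

/-! Assembly: `lambda* < 103/105`. -/

namespace LU56
open LS35

theorem start (K : ℕ) : ∃ (V F : Type) (_ : Fintype V) (_ : Fintype F) (T : Tri V F) (lab : F → Lab),
    (∀ g σ j, lab g = some (σ, j) → j ≤ K) ∧ (∀ A, Split T A → Pot T Q sw ow lab A ≤ 16 * Q ^ K) ∧
      nw 0 * R ^ K ≤ Siz R nw lab := by
  obtain ⟨T⟩ := ex4
  refine ⟨Fin 4, Fin 4, inferInstance, inferInstance, T, fun g => if g = 0 then some (0, K) else none, ?_, ?_, ?_⟩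
  · intro g σ j h
    by_cases hg : g = 0
    · simp [hg] at h
      omega
    · simp [hg] at h
  · intro A _
    have h1 : Pot T Q sw ow (fun g => if g = 0 then some (0, K) else none) A = Q ^ K * wgt T A 0 (sw 0) (ow 0) := by
      unfold Pot
      rw [Finset.sum_eq_single 0]
      · simp [lw]
      · intro b _ hb
        simp [lw, hb]
      · simp
    rw [h1]
    have hQ : 0 < Q ^ K := by unfold Q; positivity
    have h2 : wgt T A 0 (sw 0) (ow 0) ≤ 1 := by
      unfold wgt sw ow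
      split_ifs <;> norm_num
    nlinarith
  · unfold Siz
    rw [Finset.sum_eq_single 0]
    · simp [ls]
    · intro b _ hb
      simp [ls, hb]
    · simp

open Classical in
theorem upper_bound : ∃ (V F : Type) (_ : Fintype V) (_ : Fintype F) (T : Tri V F) (M : Finset F) (a b c : ℕ),
    IsABC T M a b c ∧ Real.logb b c < 103 / 105 := by
  obtain ⟨K, hK⟩ := choose_level
  obtain ⟨V1, F1, i1, i2, T1, lab, hlev, hP, hS⟩ := start K
  have hQ1 : (1 : ℝ) ≤ Q := by unfold Q; norm_num
  have hR0 : (0 : ℝ) < R := by unfold R; norm_num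
  obtain ⟨V, F, j1, j2, T, lab', h61, hP', hS'⟩ := to_terminal Q R hQ1 hR0 sw ow nw
    (by intro τ; fin_cases τ <;> norm_num [sw]) (by intro τ; fin_cases τ <;> norm_num [ow]) hosts K (16 * Q ^ K)
    (nw 0 * R ^ K) le_rfl (mea lab) V1 F1 i1 i2 T1 lab le_rfl hlev hP hS
  have hb := hK (Finset.univ.filter fun f => lab' f ≠ none).card (hS'.trans (count_all lab' h61))
  refine ⟨V, F, j1, j2, T, Finset.univ.filter fun f => lab' f ≠ none, Fintype.card F,
    (Finset.univ.filter fun f => lab' f ≠ none).card, ⌊20 * Q ^ K⌋₊, ⟨rfl, rfl, hb.1, hb.2.1, ?_⟩, hb.2.2⟩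
  intro p hp α β γ h
  refine stab_le T _ _ hb.1 (fun A hA => ?_) p hp α β γ h
  exact count_two T lab' K A (hP' A hA)

end LU56
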