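import Pool.Agent.LibLS35.I5
import Pool.Agent.LibLS35.I6
import Pool.Agent.LibLS35.I7
import Pool.Agent.LibLU56.Defs

/-! Insertion of copies of `T2` (minus `t0`) in the faces `M1` of `T1` as a triangulation, and of labels. -/

namespace LU56
open LS35

section

variable {V1 F1 V2 F2 : Type} [Fintype V1] [Fintype F1] [Fintype V2] [Fintype F2]
  (T1 : Tri V1 F1) (M1 : Finset F1) (T2 : Tri V2 F2) (t0 : F2)

/-- the new triangulation -/
noncomputable def ins : Tri (IV V1 M1 T2 t0) (IF (F1 := F1) M1 t0) where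
  vt := ivt T1 M1 T2 t0
  inj := ivt_inj T1 M1 T2 t0
  uniq := fun a b i j h1 h2 => ivt_uniq T1 M1 T2 t0 a b i j h1 h2
  opp := fun a i => ivt_opp T1 M1 T2 t0 a i
  link := fun a b i j h => ivt_link T1 M1 T2 t0 a b i j h
  conn := fun x y => ivt_conn T1 M1 T2 t0 x y
  four := by
    have h1 := card_IV T1 M1 T2 t0
    have h2 := T1.four
    have h3 := T2.four
    nlinarith
  euler := by
    have h1 := card_IV T1 M1 T2 t0
    have h4 := card_IF (F1 := F1) M1 t0
    have e1 := T1.euler
    have e2 := T2.euler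
    have : M1.card * (Fintype.card F2 + 4) = M1.card * (2 * Fintype.card V2) := by rw [e2]
    nlinarith

@[simp] theorem ins_vt (a : IF (F1 := F1) M1 t0) (i : Fin 3) : (ins T1 M1 T2 t0).vt a i = ivt T1 M1 T2 t0 a i := rfl

/-- labels of the new triangulation: old labels, and in the copy in a face of level `k` a label `(σ, d)` of the host becomes `(σ, k - d)` -/
def iLab (lab : F1 → Lab) (hl : F2 → Lab) (k : ℕ) : IF (F1 := F1) M1 t0 → Lab
  | Sum.inl g => lab g.1
  | Sum.inr (_, g) => (hl g.1).map fun x => (x.1, k - x.2)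

end

end LU56
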